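import Mathlib

set_option autoImplicit false

/-! The binary Champernowne word and the orbit of the Champernowne constant under doubling. -/

namespace Pool.Agent.R521.Champ

open Finset

/-- the word obtained by writing `1, ..., n` in base `2`, one after another -/
def word (n : ℕ) : List ℕ := (List.range n).flatMap fun i => (Nat.digits 2 (i + 1)).reverse

/-- the `i`-th letter of the infinite word -/
def digit (i : ℕ) : ℕ := (word (i + 1)).getD i 0

/-- the binary Champernowne constant -/
noncomputable def champ : ℝ := ∑' i : ℕ, (digit i : ℝ) / 2 ^ (i + 1)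

/-- length of the word of `1, ..., n` -/
def len (n : ℕ) : ℕ := (word n).length

lemma word_succ (n : ℕ) : word (n + 1) = word n ++ (Nat.digits 2 (n + 1)).reverse := by
  unfold word
  rw [List.range_succ, List.flatMap_append]
  simp

lemma digits_len (n : ℕ) : (Nat.digits 2 n).length = Nat.size n := by
  apply le_antisymm
  · rw [← not_lt]
    intro h
    have h1 : n < 2 ^ Nat.size n := Nat.lt_size_self n
    have h2 : n ≠ 0 := by
      rintro rfl
      simp at h
    have h3 : 2 ^ (Nat.digits 2 n).length ≤ 2 * n := Nat.base_pow_length_digits_le' 0 n h2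
    have h4 : 2 ^ (Nat.size n + 1) ≤ 2 ^ (Nat.digits 2 n).length := Nat.pow_le_pow_right (by norm_num) h
    rw [pow_succ] at h4
    omega
  · rw [Nat.size_le]
    exact Nat.lt_base_pow_length_digits (by norm_num)

lemma len_zero : len 0 = 0 := rfl

lemma len_succ (n : ℕ) : len (n + 1) = len n + Nat.size (n + 1) := by
  unfold len
  rw [word_succ, List.length_append, List.length_reverse, digits_len]

lemma len_mono {m n : ℕ} (h : m ≤ n) : len m ≤ len n := by
  induction n, h using Nat.le_induction with
  | base => exact le_rfl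
  | succ n _ ih => rw [len_succ]; omega

lemma size_pos_succ (n : ℕ) : 1 ≤ Nat.size (n + 1) := Nat.size_pos.2 (Nat.succ_pos n)

lemma le_len (n : ℕ) : n ≤ len n := by
  induction n with
  | zero => simp
  | succ n ih =>
    rw [len_succ]
    have := size_pos_succ n
    omega

lemma getD_word {m n i : ℕ} (h : n ≤ m) (hi : i < len n) : (word m).getD i 0 = (word n).getD i 0 := by
  induction m, h using Nat.le_induction with
  | base => rfl
  | succ m hm ih =>
    rw [word_succ, ← ih]
    have : i < (word m).length := lt_of_lt_of_le hi (len_mono hm)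
    rw [List.getD_append _ _ _ _ this]

lemma digit_eq {n i : ℕ} (hi : i < len n) : digit i = (word n).getD i 0 := by
  unfold digit
  rcases le_total n (i + 1) with h | h
  · exact getD_word h hi
  · exact (getD_word h (lt_of_lt_of_le (Nat.lt_succ_self i) (le_len (i + 1)))).symm

/-- the digits of the block of `t` -/
lemma digit_block {t r : ℕ} (hr : r < Nat.size t) : digit (len t - 1 - r) = t / 2 ^ r % 2 := by
  obtain ⟨n, rfl⟩ : ∃ n, t = n + 1 := by
    rcases t with _ | n
    · simp at hr
    · exact ⟨n, rfl⟩
  have h1 := len_succ n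
  have hlt : len (n + 1) - 1 - r < len (n + 1) := by omega
  rw [digit_eq hlt, word_succ]
  have h2 : len (n + 1) - 1 - r = (word n).length + (Nat.size (n + 1) - 1 - r) := by
    have : (word n).length = len n := rfl
    omega
  rw [h2, List.getD_append_right _ _ _ _ (by omega)]
  rw [show (word n).length + (Nat.size (n + 1) - 1 - r) - (word n).length = Nat.size (n + 1) - 1 - r by omega]
  have hl : (Nat.digits 2 (n + 1)).length = Nat.size (n + 1) := digits_len _
  rw [List.getD_eq_getElem _ _ (by rw [List.length_reverse, hl]; omega), List.getElem_reverse]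
  have h3 : (Nat.digits 2 (n + 1)).length - 1 - (Nat.size (n + 1) - 1 - r) = r := by omega
  have h4 := Nat.getD_digits (n + 1) r (b := 2) (by norm_num)
  rw [List.getD_eq_getElem _ _ (by omega)] at h4
  rw [← h4]
  congr 1

lemma digit_le (i : ℕ) : digit i ≤ 1 := by
  unfold digit
  by_cases h : i < (word (i + 1)).length
  · rw [List.getD_eq_getElem _ _ h]
    have h1 : (word (i + 1))[i] ∈ word (i + 1) := List.getElem_mem h
    generalize (word (i + 1))[i] = c at h1
    unfold word at h1
    rw [List.mem_flatMap] at h1
    obtain ⟨a, _, ha⟩ := h1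
    rw [List.mem_reverse] at ha
    have := Nat.digits_lt_base (by norm_num) ha
    omega
  · rw [List.getD_eq_default _ _ (by omega)]
    omega

/-- the real number with the digits from place `n` on -/
noncomputable def tail (n : ℕ) : ℝ := ∑' i : ℕ, (digit (n + i) : ℝ) / 2 ^ (i + 1)

lemma summ (n : ℕ) : Summable fun i : ℕ => (digit (n + i) : ℝ) / 2 ^ (i + 1) := by
  have h : Summable fun i : ℕ => (1 / 2 : ℝ) ^ i := summable_geometric_of_lt_one (by norm_num) (by norm_num)
  refine Summable.of_nonneg_of_le (fun i => by positivity) (fun i => ?_) h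
  rw [div_pow, one_pow]
  have h1 : (digit (n + i) : ℝ) ≤ 1 := by exact_mod_cast digit_le _
  apply div_le_div₀ (by norm_num) h1 (by positivity)
  exact pow_le_pow_right₀ (by norm_num) (Nat.le_succ i)

lemma tail_nonneg (n : ℕ) : 0 ≤ tail n := tsum_nonneg fun i => by positivity

lemma tail_succ (n : ℕ) : tail n = ((digit n : ℝ) + tail (n + 1)) / 2 := by
  unfold tail
  rw [(summ n).tsum_eq_zero_add, add_div, ← tsum_div_const]
  congr 1
  · simp
  · apply tsum_congr
    intro i
    rw [show n + 1 + i = n + (i + 1) by ring, pow_succ 2 (i + 1), div_div]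

lemma tail_le_one (n : ℕ) : tail n ≤ 1 := by
  have h : HasSum (fun i : ℕ => (1 / 2 : ℝ) * (1 / 2 : ℝ) ^ i) ((1 / 2) * (1 - 1 / 2)⁻¹) :=
    (hasSum_geometric_of_lt_one (by norm_num) (by norm_num)).mul_left _
  have h1 := h.tsum_eq
  have h2 : tail n ≤ ∑' i : ℕ, (1 / 2 : ℝ) * (1 / 2 : ℝ) ^ i := by
    unfold tail
    refine Summable.tsum_le_tsum (fun i => ?_) (summ n) h.summable
    have h1 : (digit (n + i) : ℝ) ≤ 1 := by exact_mod_cast digit_le _
    rw [div_pow, one_pow, one_div_mul_one_div, ← pow_succ']
    exact div_le_div_of_nonneg_right h1 (by positivity)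
  rw [h1] at h2
  norm_num at h2
  exact h2

/-- the tail inside a block -/
lemma tail_block {t r : ℕ} (hr : r ≤ Nat.size t) :
    tail (len t - r) = (((t % 2 ^ r : ℕ) : ℝ) + tail (len t)) / 2 ^ r := by
  induction r with
  | zero => simp [Nat.mod_one]
  | succ r ih =>
    have h1 : Nat.size t ≤ len t := by
      rcases t with _ | n
      · simp
      · rw [len_succ]; omega
    have e : len t - r = len t - (r + 1) + 1 := by omega
    rw [tail_succ, ← e, ih (by omega)]
    have h2 := digit_block (t := t) (r := r) (by omega)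
    rw [show len t - 1 - r = len t - (r + 1) by omega] at h2
    rw [h2]
    have h3 : t % 2 ^ (r + 1) = t % 2 ^ r + 2 ^ r * (t / 2 ^ r % 2) := Nat.mod_pow_succ
    rw [h3]
    push_cast
    field_simp
    ring

lemma tail_lt_one (n : ℕ) : tail n < 1 := by
  -- it suffices to have one tail `< 1` further on
  have key : ∀ m : ℕ, tail (n + m) < 1 → tail n < 1 := by
    intro m
    induction m with
    | zero => intro h; exact h
    | succ m ih =>
      intro h
      apply ih
      rw [tail_succ]
      have h1 : (digit (n + m) : ℝ) ≤ 1 := by exact_mod_cast digit_le _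
      rw [← add_assoc] at h
      linarith
  -- the block of `2 ^ m`
  set t := 2 ^ (n + 1) with ht
  have hsize : Nat.size t = n + 1 + 1 := Nat.size_pow
  have h1 := tail_block (t := t) (r := n + 1) (by omega)
  have h2 : t % 2 ^ (n + 1) = 0 := Nat.mod_self _
  rw [h2] at h1
  have h3 : tail (len t - (n + 1)) < 1 := by
    rw [h1]
    have := tail_le_one (len t)
    have h4 : (2 : ℝ) ≤ 2 ^ (n + 1) := by
      calc (2 : ℝ) = 2 ^ 1 := by norm_num
        _ ≤ 2 ^ (n + 1) := pow_le_pow_right₀ (by norm_num) (by omega)
    rw [div_lt_one (by positivity)]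
    push_cast
    linarith
  have h5 : n ≤ len t - (n + 1) := by
    have := le_len t
    have h6 : 2 * (n + 1) ≤ 2 ^ (n + 1) := by
      have := Nat.lt_two_pow_self (n := n)
      rw [pow_succ]; omega
    omega
  obtain ⟨m, hm⟩ := Nat.exists_eq_add_of_le h5
  rw [hm] at h3
  exact key m h3

lemma pow_mul_champ (n : ℕ) : ∃ z : ℤ, 2 ^ n * champ = z + tail n := by
  induction n with
  | zero =>
    refine ⟨0, ?_⟩
    unfold champ tail
    simp
  | succ n ih =>
    obtain ⟨z, hz⟩ := ih
    refine ⟨2 * z + digit n, ?_⟩
    rw [pow_succ', mul_assoc, hz, tail_succ]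
    push_cast
    ring

lemma fract_champ (n : ℕ) : Int.fract (2 ^ n * champ) = tail n := by
  obtain ⟨z, hz⟩ := pow_mul_champ n
  rw [hz, Int.fract_intCast_add, Int.fract_eq_self]
  exact ⟨tail_nonneg n, tail_lt_one n⟩

end Pool.Agent.R521.Champ
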