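import Mathlib
import Pool.Agent.R521.Champ.A

set_option autoImplicit false

/-! Cells of the orbit and the number of visits, upper bounds. -/

namespace Pool.Agent.R521.Champ

open Finset

/-- the first `k` digits from place `n` on -/
noncomputable def cel (k n : ℕ) : ℕ := ⌊2 ^ k * tail n⌋₊

lemma cel_lt (k n : ℕ) : cel k n < 2 ^ k := by
  unfold cel
  rw [Nat.floor_lt (mul_nonneg (by positivity) (tail_nonneg n))]
  push_cast
  have := tail_lt_one n
  have h2 : (0 : ℝ) < 2 ^ k := by positivity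
  nlinarith

lemma floor_add_div (a m : ℕ) {y : ℝ} (h0 : 0 ≤ y) (h1 : y < 1) : ⌊((a : ℝ) + y) / m⌋₊ = a / m := by
  rw [Nat.floor_div_natCast]
  congr 1
  rw [Nat.floor_eq_iff (by positivity)]
  constructor <;> linarith

/-- inside a block -/
lemma cel_inside {k t r : ℕ} (hk : k ≤ r) (hr : r ≤ Nat.size t) :
    cel k (len t - r) = t / 2 ^ (r - k) % 2 ^ k := by
  unfold cel
  rw [tail_block hr]
  have e : (2 : ℝ) ^ k * (((t % 2 ^ r : ℕ) + tail (len t)) / 2 ^ r) =
      ((t % 2 ^ r : ℕ) + tail (len t)) / ((2 ^ (r - k) : ℕ) : ℝ) := by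
    have : (2 : ℝ) ^ r = 2 ^ k * 2 ^ (r - k) := by rw [← pow_add]; congr 1; omega
    rw [this]
    push_cast
    field_simp
  rw [e, floor_add_div _ _ (tail_nonneg _) (tail_lt_one _)]
  have h2 : 2 ^ r = 2 ^ (r - k) * 2 ^ k := by rw [← pow_add]; congr 1; omega
  rw [h2, Nat.mod_mul_right_div_self]

/-- across the end of a block -/
lemma cel_cross {k t r u : ℕ} (hk : r + u = k) (hr : r ≤ Nat.size t) :
    cel k (len t - r) = t % 2 ^ r * 2 ^ u + cel u (len t) := by
  unfold cel
  rw [tail_block hr]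
  have e : (2 : ℝ) ^ k * (((t % 2 ^ r : ℕ) + tail (len t)) / 2 ^ r) =
      ((t % 2 ^ r * 2 ^ u : ℕ) : ℝ) + 2 ^ u * tail (len t) := by
    rw [← hk, pow_add]
    push_cast
    field_simp
  rw [e, add_comm (((t % 2 ^ r * 2 ^ u : ℕ) : ℝ)), Nat.floor_add_natCast (mul_nonneg (by positivity) (tail_nonneg _)),
    add_comm]

lemma len_sub (t : ℕ) : len (t + 1) - Nat.size (t + 1) = len t := by
  rw [len_succ]; omega

/-- the beginning of a block -/
lemma cel_begin {t u : ℕ} (hu : u ≤ Nat.size (t + 1)) :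
    cel u (len t) = (t + 1) / 2 ^ (Nat.size (t + 1) - u) := by
  have h := cel_inside (k := u) (t := t + 1) (r := Nat.size (t + 1)) hu le_rfl
  rw [len_sub] at h
  rw [h, Nat.mod_eq_of_lt]
  rw [Nat.div_lt_iff_lt_mul (by positivity), ← pow_add]
  rw [show u + (Nat.size (t + 1) - u) = Nat.size (t + 1) by omega]
  exact Nat.lt_size_self _

lemma cel_begin' {t u : ℕ} (hu : Nat.size (t + 1) ≤ u) :
    cel u (len t) / 2 ^ (u - Nat.size (t + 1)) = t + 1 := by
  have h := cel_cross (k := u) (t := t + 1) (r := Nat.size (t + 1)) (u := u - Nat.size (t + 1)) (by omega) le_rfl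
  rw [len_sub, Nat.mod_eq_of_lt (Nat.lt_size_self _)] at h
  rw [h, mul_comm, Nat.mul_add_div (by positivity)]
  rw [Nat.div_eq_of_lt (cel_lt _ _)]

/-- every place belongs to a block -/
lemma exists_block {M n : ℕ} (h : n < len M) :
    ∃ t r, 1 ≤ t ∧ t ≤ M ∧ 1 ≤ r ∧ r ≤ Nat.size t ∧ n = len t - r := by
  induction M with
  | zero => simp [len_zero] at h
  | succ M ih =>
    rcases lt_or_ge n (len M) with h1 | h1
    · obtain ⟨t, r, h2, h3, h4⟩ := ih h1
      exact ⟨t, r, h2, by omega, h4⟩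
    · rw [len_succ] at h
      exact ⟨M + 1, len (M + 1) - n, by omega, le_rfl, by rw [len_succ]; omega, by rw [len_succ]; omega,
        by rw [len_succ]; omega⟩

/-- the number of visits of the first `L` points to the cell `v` -/
noncomputable def cnt (k L v : ℕ) : ℕ := ((range L).filter (fun n => cel k n = v)).card

/-- the visits with `r` digits of the block of some `t ≤ M` left -/
noncomputable def cr (k M r v : ℕ) : ℕ :=
  ((Icc 1 M).filter (fun t => r ≤ Nat.size t ∧ cel k (len t - r) = v)).card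

lemma cnt_le (k M v : ℕ) : cnt k (len M) v ≤ ∑ r ∈ Icc 1 (Nat.size M), cr k M r v := by
  unfold cnt cr
  calc _ ≤ ((Icc 1 (Nat.size M)).biUnion (fun r => ((Icc 1 M).filter
      (fun t => r ≤ Nat.size t ∧ cel k (len t - r) = v)).image (fun t => len t - r))).card := by
        apply card_le_card
        intro n hn
        rw [mem_filter, mem_range] at hn
        obtain ⟨t, r, h1, h2, h3, h4, rfl⟩ := exists_block hn.1
        rw [mem_biUnion]
        refine ⟨r, mem_Icc.2 ⟨h3, h4.trans (Nat.size_le_size h2)⟩, ?_⟩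
        rw [mem_image]
        exact ⟨t, mem_filter.2 ⟨mem_Icc.2 ⟨h1, h2⟩, h4, hn.2⟩, rfl⟩
    _ ≤ _ := card_biUnion_le.trans (sum_le_sum fun r _ => card_image_le)

/-- visits inside the blocks -/
lemma run_count (e k v a b : ℕ) :
    ((Icc a b).filter (fun t => t / 2 ^ e % 2 ^ k = v)).card ≤
      (b / 2 ^ (e + k) + 1 - a / 2 ^ (e + k)) * 2 ^ e := by
  calc _ ≤ ((Icc (a / 2 ^ (e + k)) (b / 2 ^ (e + k))) ×ˢ range (2 ^ e)).card := by
        apply card_le_card_of_injOn (fun t => (t / 2 ^ (e + k), t % 2 ^ e))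
        · intro t ht
          rw [mem_coe, mem_filter, mem_Icc] at ht
          rw [mem_coe, mem_product, mem_Icc, mem_range]
          exact ⟨⟨Nat.div_le_div_right ht.1.1, Nat.div_le_div_right ht.1.2⟩,
            Nat.mod_lt _ (by positivity)⟩
        · intro t ht t' ht' h
          rw [mem_coe, mem_filter] at ht ht'
          simp only [Prod.mk.injEq] at h
          have h1 : ∀ s : ℕ, s / 2 ^ e % 2 ^ k = v → s = 2 ^ (e + k) * (s / 2 ^ (e + k)) + (s % 2 ^ e + 2 ^ e * v) := by
            intro s hs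
            have h2 : s % 2 ^ (e + k) = s % 2 ^ e + 2 ^ e * v := by
              rw [pow_add, Nat.mod_mul, hs]
            have h3 := Nat.div_add_mod s (2 ^ (e + k))
            rw [h2] at h3
            exact h3.symm
          rw [h1 t ht.2, h1 t' ht'.2, h.1, h.2]
    _ = _ := by rw [card_product, Nat.card_Icc, card_range]

lemma cr_inside {k M r v : ℕ} (hr : 1 ≤ r) (hk : k ≤ r) (hM : 2 ^ (r - 1) ≤ M) :
    (cr k M r v : ℝ) ≤ (M : ℝ) / 2 ^ k + 2 * 2 ^ r / 2 ^ k := by
  have h1 : cr k M r v ≤ (M / 2 ^ r + 1) * 2 ^ (r - k) := by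
    unfold cr
    calc _ ≤ ((Icc 1 M).filter (fun t => t / 2 ^ (r - k) % 2 ^ k = v)).card := by
          apply card_le_card
          intro t ht
          rw [mem_filter] at ht ⊢
          refine ⟨ht.1, ?_⟩
          rw [← cel_inside hk ht.2.1]
          exact ht.2.2
      _ ≤ _ := by
          have h2 := run_count (r - k) k v 1 M
          rw [show r - k + k = r by omega] at h2
          refine h2.trans ?_
          exact Nat.mul_le_mul_right _ (Nat.sub_le _ _)
  have h2 : (cr k M r v : ℝ) ≤ ((M / 2 ^ r : ℕ) + 1) * 2 ^ (r - k) := by exact_mod_cast h1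
  have h3 : ((M / 2 ^ r : ℕ) : ℝ) ≤ M / 2 ^ r := by
    have := @Nat.cast_div_le ℝ _ _ _ M (2 ^ r)
    push_cast at this
    exact this
  have h4 : (2 : ℝ) ^ r = 2 ^ (r - k) * 2 ^ k := by rw [← pow_add]; congr 1; omega
  refine h2.trans ?_
  calc (((M / 2 ^ r : ℕ) : ℝ) + 1) * 2 ^ (r - k) ≤ ((M : ℝ) / 2 ^ r + 1) * 2 ^ (r - k) := by gcongr
    _ = (M : ℝ) / 2 ^ k + 2 ^ r / 2 ^ k := by
        rw [h4]
        field_simp
    _ ≤ _ := by
        have : (0 : ℝ) ≤ 2 ^ r / 2 ^ k := by positivity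
        have e : 2 * (2 : ℝ) ^ r / 2 ^ k = 2 ^ r / 2 ^ k + 2 ^ r / 2 ^ k := by ring
        linarith

end Pool.Agent.R521.Champ
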