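import Mathlib
import Pool.Agent.R521.Champ.B

set_option autoImplicit false

/-! Visits across the ends of the blocks; second moment. -/

namespace Pool.Agent.R521.Champ

open Finset

/-- indicator of `2 ^ (u - 1) ≤ v mod 2 ^ u ≤ m` -/
noncomputable def gg (m u v : ℕ) : ℝ := if 2 ^ (u - 1) ≤ v % 2 ^ u ∧ v % 2 ^ u ≤ m then 1 else 0

lemma gg_nonneg (m u v : ℕ) : 0 ≤ gg m u v := by unfold gg; split_ifs <;> norm_num

lemma gg_le_one (m u v : ℕ) : gg m u v ≤ 1 := by unfold gg; split_ifs <;> norm_num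

lemma split_v {t r u k v : ℕ} (hk : r + u = k) (hr : r ≤ Nat.size t) (h : cel k (len t - r) = v) :
    t % 2 ^ r = v / 2 ^ u ∧ cel u (len t) = v % 2 ^ u := by
  rw [cel_cross hk hr] at h
  have hlt := cel_lt u (len t)
  subst h
  constructor
  · rw [mul_comm, Nat.mul_add_div (by positivity), Nat.div_eq_of_lt hlt]; rfl
  · rw [mul_comm, Nat.mul_add_mod, Nat.mod_eq_of_lt hlt]

/-- the part of `cr` with a given size of `t + 1` -/
noncomputable def crs (k M r v s : ℕ) : ℕ :=
  ((Icc 1 M).filter (fun t => (r ≤ Nat.size t ∧ cel k (len t - r) = v) ∧ Nat.size (t + 1) = s)).card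

lemma cr_eq (k M r v : ℕ) : cr k M r v = ∑ s ∈ Icc 1 (Nat.size (M + 1)), crs k M r v s := by
  unfold cr crs
  rw [card_eq_sum_card_fiberwise (f := fun t => Nat.size (t + 1)) (t := Icc 1 (Nat.size (M + 1)))]
  · apply sum_congr rfl
    intro s _
    rw [filter_filter]
  · intro t ht
    rw [mem_coe, mem_filter, mem_Icc] at ht
    rw [mem_coe, mem_Icc]
    exact ⟨size_pos_succ t, Nat.size_le_size (by omega)⟩

lemma crs_small {k M r u v s : ℕ} (hk : r + u = k) (hs : s ≤ k) : crs k M r v s ≤ 1 := by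
  unfold crs
  rw [card_le_one]
  intro t ht t' ht'
  rw [mem_filter] at ht ht'
  obtain ⟨_, ⟨h1, h2⟩, h3⟩ := ht
  obtain ⟨_, ⟨h1', h2'⟩, h3'⟩ := ht'
  obtain ⟨a, b⟩ := split_v hk h1 h2
  obtain ⟨a', b'⟩ := split_v hk h1' h2'
  rcases le_total s u with h4 | h4
  · have e := cel_begin' (t := t) (u := u) (by omega)
    have e' := cel_begin' (t := t') (u := u) (by omega)
    rw [b, h3] at e
    rw [b', h3'] at e'
    omega
  · have e := cel_begin (t := t) (u := u) (by omega)
    have e' := cel_begin (t := t') (u := u) (by omega)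
    rw [b, h3] at e
    rw [b', h3'] at e'
    have hm : t ≡ t' [MOD 2 ^ r] := by
      unfold Nat.ModEq; rw [a, a']
    have hm2 : t + 1 ≡ t' + 1 [MOD 2 ^ (s - u)] :=
      (hm.of_dvd (pow_dvd_pow 2 (by omega))).add_right 1
    have e1 := Nat.div_add_mod (t + 1) (2 ^ (s - u))
    have e2 := Nat.div_add_mod (t' + 1) (2 ^ (s - u))
    unfold Nat.ModEq at hm2
    rw [← e] at e1
    rw [← e', ← hm2] at e2
    omega

lemma crs_big {k M r u v s : ℕ} (hk : r + u = k) (hs : k ≤ s) (hu : 1 ≤ u) :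
    (crs k M r v s : ℝ) ≤ 2 ^ (s - k) * gg (2 ^ u - 1) u v := by
  rcases Finset.eq_empty_or_nonempty ((Icc 1 M).filter
    (fun t => (r ≤ Nat.size t ∧ cel k (len t - r) = v) ∧ Nat.size (t + 1) = s)) with he | ⟨t, ht⟩
  · unfold crs
    rw [he, card_empty, Nat.cast_zero]
    have := gg_nonneg (2 ^ u - 1) u v
    positivity
  · have hgg : gg (2 ^ u - 1) u v = 1 := by
      rw [mem_filter] at ht
      obtain ⟨_, ⟨h1, h2⟩, h3⟩ := ht
      obtain ⟨a, b⟩ := split_v hk h1 h2
      have e := cel_begin (t := t) (u := u) (by omega)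
      unfold gg
      rw [if_pos]
      constructor
      · rw [← b, e, Nat.le_div_iff_mul_le (by positivity), ← pow_add, ← Nat.lt_size]
        omega
      · have := Nat.mod_lt v (show 0 < 2 ^ u by positivity)
        omega
    rw [hgg, mul_one]
    have h5 : crs k M r v s ≤ (range (2 ^ (s - k))).card := by
      unfold crs
      apply card_le_card_of_injOn (fun t => (t + 1) % 2 ^ (s - u) / 2 ^ r)
      · intro t _
        rw [mem_coe, mem_range, Nat.div_lt_iff_lt_mul (by positivity), ← pow_add]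
        rw [show s - k + r = s - u by omega]
        exact Nat.mod_lt _ (by positivity)
      · intro t ht t' ht' h
        rw [mem_coe, mem_filter] at ht ht'
        obtain ⟨_, ⟨h1, h2⟩, h3⟩ := ht
        obtain ⟨_, ⟨h1', h2'⟩, h3'⟩ := ht'
        obtain ⟨a, b⟩ := split_v hk h1 h2
        obtain ⟨a', b'⟩ := split_v hk h1' h2'
        have e := cel_begin (t := t) (u := u) (by omega)
        have e' := cel_begin (t := t') (u := u) (by omega)
        rw [b, h3] at e
        rw [b', h3'] at e'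
        simp only at h
        have hm : t ≡ t' [MOD 2 ^ r] := by
          unfold Nat.ModEq; rw [a, a']
        have hm1 : (t + 1) % 2 ^ r = (t' + 1) % 2 ^ r := hm.add_right 1
        have hdv : 2 ^ r ∣ 2 ^ (s - u) := pow_dvd_pow 2 (by omega)
        have f1 := Nat.mod_mod_of_dvd (t + 1) hdv
        have f2 := Nat.mod_mod_of_dvd (t' + 1) hdv
        have g1 := Nat.div_add_mod ((t + 1) % 2 ^ (s - u)) (2 ^ r)
        have g2 := Nat.div_add_mod ((t' + 1) % 2 ^ (s - u)) (2 ^ r)
        rw [f1] at g1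
        rw [f2, ← h, ← hm1] at g2
        have e1 := Nat.div_add_mod (t + 1) (2 ^ (s - u))
        have e2 := Nat.div_add_mod (t' + 1) (2 ^ (s - u))
        rw [← e] at e1
        rw [← e'] at e2
        omega
    rw [card_range] at h5
    exact_mod_cast h5

lemma crs_top {k M r u v : ℕ} (hk : r + u = k) (hs : k ≤ Nat.size (M + 1)) (hu : 1 ≤ u) :
    (crs k M r v (Nat.size (M + 1)) : ℝ) ≤
      2 ^ (Nat.size (M + 1) - k) * gg ((M + 1) / 2 ^ (Nat.size (M + 1) - u)) u v := by
  rcases Finset.eq_empty_or_nonempty ((Icc 1 M).filter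
    (fun t => (r ≤ Nat.size t ∧ cel k (len t - r) = v) ∧ Nat.size (t + 1) = Nat.size (M + 1))) with he | ⟨t, ht⟩
  · unfold crs
    rw [he, card_empty, Nat.cast_zero]
    have := gg_nonneg ((M + 1) / 2 ^ (Nat.size (M + 1) - u)) u v
    positivity
  · have h0 := crs_big (M := M) (v := v) hk hs hu
    have hgg : gg ((M + 1) / 2 ^ (Nat.size (M + 1) - u)) u v = 1 := by
      rw [mem_filter, mem_Icc] at ht
      obtain ⟨h0, ⟨h1, h2⟩, h3⟩ := ht
      obtain ⟨a, b⟩ := split_v hk h1 h2
      have e := cel_begin (t := t) (u := u) (by omega)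
      unfold gg
      rw [if_pos]
      constructor
      · rw [← b, e, Nat.le_div_iff_mul_le (by positivity), ← pow_add, ← Nat.lt_size]
        omega
      · rw [← b, e, h3]
        exact Nat.div_le_div_right (by omega)
    rw [hgg, mul_one]
    refine h0.trans ?_
    have := gg_le_one (2 ^ u - 1) u v
    have h2 : (0 : ℝ) < 2 ^ (Nat.size (M + 1) - k) := by positivity
    nlinarith

lemma cr_cross {k M r u v : ℕ} (hk : r + u = k) (hs : k < Nat.size (M + 1)) (hu : 1 ≤ u) :
    (cr k M r v : ℝ) ≤ k + 2 ^ (Nat.size (M + 1) - k) *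
      (gg (2 ^ u - 1) u v + gg ((M + 1) / 2 ^ (Nat.size (M + 1) - u)) u v) := by
  obtain ⟨S, hS⟩ : ∃ S, S = Nat.size (M + 1) := ⟨_, rfl⟩
  have htop := crs_top (M := M) (v := v) hk (by omega) hu
  rw [cr_eq]
  rw [← hS] at htop hs ⊢
  obtain ⟨d, rfl⟩ : ∃ d, S = k + (d + 1) := ⟨S - k - 1, by omega⟩
  push_cast
  have e1 : Icc 1 (k + (d + 1)) = Icc 1 k ∪ Ioc k (k + (d + 1)) := by
    ext x; simp only [mem_Icc, mem_union, mem_Ioc]; omega
  have e2 : Disjoint (Icc 1 k) (Ioc k (k + (d + 1))) := by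
    rw [disjoint_left]; intro x; simp only [mem_Icc, mem_Ioc]; omega
  rw [e1, sum_union e2]
  have h1 : ∑ s ∈ Icc 1 k, (crs k M r v s : ℝ) ≤ k := by
    calc _ ≤ ∑ s ∈ Icc 1 k, (1 : ℝ) := by
          apply sum_le_sum
          intro s hs
          have := crs_small (M := M) (v := v) hk (mem_Icc.1 hs).2
          exact_mod_cast this
      _ = k := by simp
  have h2 : ∑ s ∈ Ioc k (k + (d + 1)), (crs k M r v s : ℝ) ≤ 2 ^ (k + (d + 1) - k) *
      (gg (2 ^ u - 1) u v + gg ((M + 1) / 2 ^ (k + (d + 1) - u)) u v) := by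
    have e3 : Ioc k (k + (d + 1)) = insert (k + (d + 1)) (Ioc k (k + d)) := by
      ext x; simp only [mem_insert, mem_Ioc]; omega
    rw [e3, sum_insert (by simp), add_comm, mul_add]
    apply add_le_add _ htop
    calc _ ≤ ∑ s ∈ Ioc k (k + d), (2 : ℝ) ^ (s - k) * gg (2 ^ u - 1) u v := by
          apply sum_le_sum
          intro s hs
          exact crs_big hk (by have := mem_Ioc.1 hs; omega) hu
      _ = (∑ s ∈ Ioc k (k + d), (2 : ℝ) ^ (s - k)) * gg (2 ^ u - 1) u v := by rw [sum_mul]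
      _ ≤ _ := by
          apply mul_le_mul_of_nonneg_right _ (gg_nonneg _ _ _)
          have e4 : ∑ s ∈ Ioc k (k + d), (2 : ℝ) ^ (s - k) = ∑ j ∈ range d, (2 : ℝ) ^ (j + 1) := by
            refine sum_nbij' (fun s => s - k - 1) (fun j => k + j + 1) ?_ ?_ ?_ ?_ ?_
            · intro s hs; rw [mem_Ioc] at hs; rw [mem_range]; omega
            · intro j hj; rw [mem_range] at hj; rw [mem_Ioc]; omega
            · intro s hs; rw [mem_Ioc] at hs; omega
            · intro j hj; omega
            · intro s hs; rw [mem_Ioc] at hs; congr 1; omega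
          rw [e4, show k + (d + 1) - k = d + 1 by omega]
          have e5 : ∑ j ∈ range d, (2 : ℝ) ^ (j + 1) = 2 ^ (d + 1) - 2 := by
            simp_rw [pow_succ]
            rw [← sum_mul, geom_sum_eq (by norm_num)]
            ring
          rw [e5]
          linarith
  linarith

end Pool.Agent.R521.Champ
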