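import Mathlib
import Pool.Agent.R521.Champ.C

set_option autoImplicit false

/-! First and second moment of the number of leading ones type statistics. -/

namespace Pool.Agent.R521.Champ

open Finset

lemma sum_range_mul' (m n : ℕ) (F : ℕ → ℝ) :
    ∑ v ∈ range (m * n), F v = ∑ z ∈ range m, ∑ y ∈ range n, F (z * n + y) := by
  induction m with
  | zero => simp
  | succ m ih => rw [Nat.succ_mul, sum_range_add, sum_range_succ, ih]

lemma sum_mod {u k : ℕ} (h : u ≤ k) (f : ℕ → ℝ) :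
    ∑ v ∈ range (2 ^ k), f (v % 2 ^ u) = 2 ^ (k - u) * ∑ y ∈ range (2 ^ u), f y := by
  have e : 2 ^ k = 2 ^ (k - u) * 2 ^ u := by rw [← pow_add]; congr 1; omega
  rw [e, sum_range_mul']
  have h1 : ∀ z ∈ range (2 ^ (k - u)), ∑ y ∈ range (2 ^ u), f ((z * 2 ^ u + y) % 2 ^ u) =
      ∑ y ∈ range (2 ^ u), f y := by
    intro z _
    apply sum_congr rfl
    intro y hy
    rw [mem_range] at hy
    congr 1
    rw [mul_comm, Nat.mul_add_mod, Nat.mod_eq_of_lt hy]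
  rw [sum_congr rfl h1, sum_const, card_range, nsmul_eq_mul]
  push_cast
  ring

/-- the mean of `gg` -/
noncomputable def mean (m u : ℕ) : ℝ := ((m : ℝ) + 1 - 2 ^ (u - 1)) / 2 ^ u

lemma sum_gg_small {m u : ℕ} (hu : 1 ≤ u) (hm : 2 ^ (u - 1) ≤ m) (hm2 : m < 2 ^ u) :
    ∑ y ∈ range (2 ^ u), (if 2 ^ (u - 1) ≤ y ∧ y ≤ m then (1 : ℝ) else 0) = 2 ^ u * mean m u := by
  rw [← sum_filter, sum_const, nsmul_eq_mul, mul_one]
  have : (range (2 ^ u)).filter (fun y => 2 ^ (u - 1) ≤ y ∧ y ≤ m) = Icc (2 ^ (u - 1)) m := by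
    ext y; simp only [mem_filter, mem_range, mem_Icc]; omega
  rw [this, Nat.card_Icc, Nat.cast_sub (by omega)]
  unfold mean
  push_cast
  field_simp

lemma sum_gg {m u k : ℕ} (hu : 1 ≤ u) (huk : u ≤ k) (hm : 2 ^ (u - 1) ≤ m) (hm2 : m < 2 ^ u) :
    ∑ v ∈ range (2 ^ k), gg m u v = 2 ^ k * mean m u := by
  have h := sum_mod huk (fun y => if 2 ^ (u - 1) ≤ y ∧ y ≤ m then (1 : ℝ) else 0)
  have e : ∀ v, gg m u v = (fun y => if 2 ^ (u - 1) ≤ y ∧ y ≤ m then (1 : ℝ) else 0) (v % 2 ^ u) :=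
    fun v => rfl
  simp_rw [e]
  rw [h, sum_gg_small hu hm hm2, ← mul_assoc, ← pow_add]
  congr 2
  omega

lemma mean_nonneg {m u : ℕ} (hm : 2 ^ (u - 1) ≤ m) : 0 ≤ mean m u := by
  unfold mean
  have : (2 : ℝ) ^ (u - 1) ≤ m := by exact_mod_cast hm
  apply div_nonneg _ (by positivity)
  linarith

lemma mean_le_one {m u : ℕ} (hm2 : m < 2 ^ u) : mean m u ≤ 1 := by
  unfold mean
  have : (m : ℝ) + 1 ≤ 2 ^ u := by exact_mod_cast hm2
  rw [div_le_one (by positivity)]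
  have : (0 : ℝ) < 2 ^ (u - 1) := by positivity
  linarith

lemma sum_pair {m m' u u' k : ℕ} (hu : 1 ≤ u) (huu : u < u') (huk : u' ≤ k) (hm : 2 ^ (u - 1) ≤ m)
    (hm2 : m < 2 ^ u) (hm' : 2 ^ (u' - 1) ≤ m') :
    ∑ v ∈ range (2 ^ k), gg m u v * gg m' u' v ≤ 2 ^ k * (mean m u * mean m' u' + (1 / 2) ^ (u' - u)) := by
  set f : ℕ → ℝ := fun y => if 2 ^ (u - 1) ≤ y ∧ y ≤ m then (1 : ℝ) else 0 with hf
  set f' : ℕ → ℝ := fun y => if 2 ^ (u' - 1) ≤ y ∧ y ≤ m' then (1 : ℝ) else 0 with hf'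
  have hf0 : ∀ y, 0 ≤ f y := by intro y; rw [hf]; simp only; split_ifs <;> norm_num
  have h1 : ∀ v, gg m u v * gg m' u' v = (fun z => f (z % 2 ^ u) * f' z) (v % 2 ^ u') := by
    intro v
    simp only
    rw [Nat.mod_mod_of_dvd v (pow_dvd_pow 2 huu.le)]
    rfl
  simp_rw [h1]
  rw [sum_mod huk (fun z => f (z % 2 ^ u) * f' z)]
  have e : 2 ^ u' = 2 ^ (u' - u) * 2 ^ u := by rw [← pow_add]; congr 1; omega
  have h2 : ∑ y ∈ range (2 ^ u'), f (y % 2 ^ u) * f' y ≤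
      ∑ z ∈ range (2 ^ (u' - u)), ∑ y ∈ range (2 ^ u),
        (if 2 ^ (u' - 1 - u) ≤ z ∧ z ≤ m' / 2 ^ u then (1 : ℝ) else 0) * f y := by
    rw [e, sum_range_mul']
    apply sum_le_sum
    intro z _
    apply sum_le_sum
    intro y hy
    rw [mem_range] at hy
    have e1 : (z * 2 ^ u + y) % 2 ^ u = y := by rw [mul_comm, Nat.mul_add_mod, Nat.mod_eq_of_lt hy]
    rw [e1, mul_comm (f y)]
    apply mul_le_mul_of_nonneg_right _ (hf0 y)
    rw [hf']
    simp only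
    by_cases hc : 2 ^ (u' - 1) ≤ z * 2 ^ u + y ∧ z * 2 ^ u + y ≤ m'
    · rw [if_pos hc, if_pos]
      constructor
      · have e2 : 2 ^ (u' - 1) = 2 ^ (u' - 1 - u) * 2 ^ u := by rw [← pow_add]; congr 1; omega
        rw [e2] at hc
        by_contra hlt
        push Not at hlt
        have h3 : (z + 1) * 2 ^ u ≤ 2 ^ (u' - 1 - u) * 2 ^ u := Nat.mul_le_mul_right _ hlt
        have h4 : (z + 1) * 2 ^ u = z * 2 ^ u + 2 ^ u := by ring
        omega
      · rw [Nat.le_div_iff_mul_le (by positivity)]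
        omega
    · rw [if_neg hc]
      split_ifs <;> norm_num
  have h3 : ∑ z ∈ range (2 ^ (u' - u)), ∑ y ∈ range (2 ^ u),
        (if 2 ^ (u' - 1 - u) ≤ z ∧ z ≤ m' / 2 ^ u then (1 : ℝ) else 0) * f y =
      (∑ z ∈ range (2 ^ (u' - u)), if 2 ^ (u' - 1 - u) ≤ z ∧ z ≤ m' / 2 ^ u then (1 : ℝ) else 0) *
        ∑ y ∈ range (2 ^ u), f y := by
    rw [sum_mul]
    apply sum_congr rfl
    intro z _
    rw [mul_sum]
  have h4 : (∑ z ∈ range (2 ^ (u' - u)), if 2 ^ (u' - 1 - u) ≤ z ∧ z ≤ m' / 2 ^ u then (1 : ℝ) else 0) ≤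
      ((m' : ℝ) + 1 - 2 ^ (u' - 1)) / 2 ^ u + 1 := by
    rw [← sum_filter, sum_const, nsmul_eq_mul, mul_one]
    have h5 : ((range (2 ^ (u' - u))).filter (fun z => 2 ^ (u' - 1 - u) ≤ z ∧ z ≤ m' / 2 ^ u)).card ≤
        m' / 2 ^ u + 1 - 2 ^ (u' - 1 - u) := by
      rw [← Nat.card_Icc]
      apply card_le_card
      intro z hz
      rw [mem_filter] at hz
      exact mem_Icc.2 hz.2
    have h6 : 2 ^ (u' - 1 - u) ≤ m' / 2 ^ u := by
      rw [Nat.le_div_iff_mul_le (by positivity), ← pow_add]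
      rw [show u' - 1 - u + u = u' - 1 by omega]
      exact hm'
    have h7 : (((range (2 ^ (u' - u))).filter (fun z => 2 ^ (u' - 1 - u) ≤ z ∧ z ≤ m' / 2 ^ u)).card : ℝ) ≤
        ((m' / 2 ^ u : ℕ) : ℝ) + 1 - 2 ^ (u' - 1 - u) := by
      have := (Nat.cast_le (α := ℝ)).2 h5
      rw [Nat.cast_sub (by omega)] at this
      push_cast at this ⊢
      exact this
    refine h7.trans ?_
    have h8 : ((m' / 2 ^ u : ℕ) : ℝ) ≤ (m' : ℝ) / 2 ^ u := by
      have := @Nat.cast_div_le ℝ _ _ _ m' (2 ^ u)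
      push_cast at this
      exact this
    have h9 : (2 : ℝ) ^ (u' - 1) / 2 ^ u = 2 ^ (u' - 1 - u) := by
      rw [div_eq_iff (by positivity), ← pow_add]
      congr 1; omega
    rw [sub_div, h9, add_div]
    have : (0 : ℝ) < 1 / 2 ^ u := by positivity
    linarith
  have h5 := sum_gg_small hu hm hm2
  have h6 : ∑ y ∈ range (2 ^ u), f y = 2 ^ u * mean m u := h5
  have hmn := mean_nonneg hm
  have hml := mean_le_one hm2
  calc (2 : ℝ) ^ (k - u') * ∑ y ∈ range (2 ^ u'), f (y % 2 ^ u) * f' y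
      ≤ 2 ^ (k - u') * ((((m' : ℝ) + 1 - 2 ^ (u' - 1)) / 2 ^ u + 1) * (2 ^ u * mean m u)) := by
        apply mul_le_mul_of_nonneg_left _ (by positivity)
        refine h2.trans ?_
        rw [h3, h6]
        exact mul_le_mul_of_nonneg_right h4 (by positivity)
    _ = 2 ^ k * (mean m u * mean m' u' + (1 / 2) ^ (u' - u) * mean m u) := by
        have e3 : (2 : ℝ) ^ k = 2 ^ (k - u') * 2 ^ u' := by rw [← pow_add]; congr 1; omega
        have e4 : ((1 : ℝ) / 2) ^ (u' - u) = 2 ^ u / 2 ^ u' := by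
          rw [div_pow, one_pow, div_eq_div_iff (by positivity) (by positivity), one_mul, ← pow_add]
          congr 1; omega
        rw [e3, e4]
        unfold mean
        field_simp
    _ ≤ _ := by
        apply mul_le_mul_of_nonneg_left _ (by positivity)
        have : (0 : ℝ) < (1 / 2) ^ (u' - u) := by positivity
        nlinarith

/-- sum of two indicators -/
noncomputable def hh (m : ℕ → ℕ) (u v : ℕ) : ℝ := gg (2 ^ u - 1) u v + gg (m u) u v

/-- its mean -/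
noncomputable def hm (m : ℕ → ℕ) (u : ℕ) : ℝ := mean (2 ^ u - 1) u + mean (m u) u

lemma two_pow_sub {u : ℕ} (hu : 1 ≤ u) : 2 ^ (u - 1) ≤ 2 ^ u - 1 ∧ 2 ^ u - 1 < 2 ^ u := by
  obtain ⟨w, rfl⟩ : ∃ w, u = w + 1 := ⟨u - 1, by omega⟩
  have : 0 < 2 ^ w := by positivity
  rw [pow_succ]
  simp only [Nat.add_sub_cancel]
  omega

lemma hh_pair {m : ℕ → ℕ} {u u' k : ℕ} (hu : 1 ≤ u) (huu : u < u') (huk : u' ≤ k)
    (hm1 : ∀ u, 1 ≤ u → u ≤ k → 2 ^ (u - 1) ≤ m u ∧ m u < 2 ^ u) :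
    ∑ v ∈ range (2 ^ k), hh m u v * hh m u' v ≤ 2 ^ k * (hm m u * hm m u' + 4 * (1 / 2) ^ (u' - u)) := by
  obtain ⟨a1, a2⟩ := two_pow_sub hu
  obtain ⟨b1, b2⟩ := two_pow_sub (show 1 ≤ u' by omega)
  obtain ⟨c1, c2⟩ := hm1 u hu (by omega)
  obtain ⟨d1, d2⟩ := hm1 u' (by omega) huk
  have s1 := sum_pair hu huu huk a1 a2 b1
  have s2 := sum_pair hu huu huk a1 a2 d1
  have s3 := sum_pair hu huu huk c1 c2 b1
  have s4 := sum_pair hu huu huk c1 c2 d1
  have e : ∀ v, hh m u v * hh m u' v = gg (2 ^ u - 1) u v * gg (2 ^ u' - 1) u' v +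
      gg (2 ^ u - 1) u v * gg (m u') u' v + gg (m u) u v * gg (2 ^ u' - 1) u' v +
      gg (m u) u v * gg (m u') u' v := by
    intro v; unfold hh; ring
  simp_rw [e]
  rw [sum_add_distrib, sum_add_distrib, sum_add_distrib]
  unfold hm
  linarith

lemma hh_sq {m : ℕ → ℕ} {u k : ℕ} :
    ∑ v ∈ range (2 ^ k), hh m u v * hh m u v ≤ 2 ^ k * 4 := by
  calc _ ≤ ∑ v ∈ range (2 ^ k), (4 : ℝ) := by
        apply sum_le_sum
        intro v _
        unfold hh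
        have h1 := gg_nonneg (2 ^ u - 1) u v
        have h2 := gg_le_one (2 ^ u - 1) u v
        have h3 := gg_nonneg (m u) u v
        have h4 := gg_le_one (m u) u v
        nlinarith
    _ = _ := by rw [sum_const, card_range, nsmul_eq_mul]; push_cast; ring

lemma hm_nonneg {m : ℕ → ℕ} {u k : ℕ} (hu : 1 ≤ u) (huk : u ≤ k)
    (hm1 : ∀ u, 1 ≤ u → u ≤ k → 2 ^ (u - 1) ≤ m u ∧ m u < 2 ^ u) : 0 ≤ hm m u := by
  unfold hm
  have h1 := mean_nonneg (two_pow_sub hu).1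
  have h2 := mean_nonneg (hm1 u hu huk).1
  linarith

lemma geo_two (u n : ℕ) : ∑ w ∈ Icc 1 n, (1 / 2 : ℝ) ^ ((w - u) + (u - w)) ≤ 4 := by
  have hgeo : ∀ d : ℕ, ∑ j ∈ range d, (1 / 2 : ℝ) ^ j ≤ 2 := by
    intro d
    rw [geom_sum_eq (by norm_num)]
    have : (0 : ℝ) < (1 / 2) ^ d := by positivity
    rw [div_le_iff_of_neg (by norm_num)]
    linarith
  have h1 : ∑ w ∈ (Icc 1 n).filter (fun w => w ≤ u), (1 / 2 : ℝ) ^ ((w - u) + (u - w)) ≤ 2 := by
    refine le_trans ?_ (hgeo (u + 1))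
    have h2 : ∑ w ∈ (Icc 1 n).filter (fun w => w ≤ u), (1 / 2 : ℝ) ^ ((w - u) + (u - w)) ≤
        ∑ w ∈ range (u + 1), (1 / 2 : ℝ) ^ ((w - u) + (u - w)) := by
      apply sum_le_sum_of_subset_of_nonneg
      · intro w hw
        rw [mem_filter] at hw
        rw [mem_range]; omega
      · intro _ _ _; positivity
    refine h2.trans (le_of_eq ?_)
    rw [← sum_range_reflect]
    apply sum_congr rfl
    intro w hw
    rw [mem_range] at hw
    congr 1
    omega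
  have h2 : ∑ w ∈ (Icc 1 n).filter (fun w => ¬ w ≤ u), (1 / 2 : ℝ) ^ ((w - u) + (u - w)) ≤ 2 := by
    refine le_trans ?_ (hgeo (n + 1))
    have h3 : ∑ w ∈ (Icc 1 n).filter (fun w => ¬ w ≤ u), (1 / 2 : ℝ) ^ ((w - u) + (u - w)) =
        ∑ j ∈ ((Icc 1 n).filter (fun w => ¬ w ≤ u)).image (fun w => w - u), (1 / 2 : ℝ) ^ j := by
      rw [sum_image]
      · apply sum_congr rfl
        intro w hw
        rw [mem_filter] at hw
        congr 1
        omega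
      · intro a ha b hb hab
        rw [mem_coe, mem_filter] at ha hb
        simp only at hab
        omega
    rw [h3]
    apply sum_le_sum_of_subset_of_nonneg
    · intro j hj
      rw [mem_image] at hj
      obtain ⟨w, hw, rfl⟩ := hj
      rw [mem_filter, mem_Icc] at hw
      rw [mem_range]; omega
    · intro _ _ _; positivity
  rw [← sum_filter_add_sum_filter_not _ (fun w => w ≤ u)]
  linarith

/-- **second moment** -/
theorem second_moment {m : ℕ → ℕ} {k : ℕ}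
    (hm1 : ∀ u, 1 ≤ u → u ≤ k → 2 ^ (u - 1) ≤ m u ∧ m u < 2 ^ u) :
    ∑ v ∈ range (2 ^ k), (∑ u ∈ Icc 1 (k - 1), hh m u v) ^ 2 ≤
      2 ^ k * ((∑ u ∈ Icc 1 (k - 1), hm m u) ^ 2 + 16 * k) := by
  have e1 : ∀ v, (∑ u ∈ Icc 1 (k - 1), hh m u v) ^ 2 =
      ∑ u ∈ Icc 1 (k - 1), ∑ w ∈ Icc 1 (k - 1), hh m u v * hh m w v := by
    intro v; rw [sq, sum_mul_sum]
  simp_rw [e1]
  rw [sum_comm]
  have e2 : ∀ u ∈ Icc 1 (k - 1), ∑ v ∈ range (2 ^ k), ∑ w ∈ Icc 1 (k - 1), hh m u v * hh m w v ≤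
      ∑ w ∈ Icc 1 (k - 1), 2 ^ k * (hm m u * hm m w + 4 * (1 / 2) ^ ((w - u) + (u - w))) := by
    intro u hu
    rw [sum_comm]
    apply sum_le_sum
    intro w hw
    rw [mem_Icc] at hu hw
    rcases lt_trichotomy u w with h | h | h
    · have := hh_pair hu.1 h (by omega : w ≤ k) hm1
      rw [show (w - u) + (u - w) = w - u by omega]
      exact this
    · subst h
      refine (hh_sq).trans ?_
      apply mul_le_mul_of_nonneg_left _ (by positivity)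
      rw [Nat.sub_self, add_zero, pow_zero]
      nlinarith [mul_self_nonneg (hm m u)]
    · have := hh_pair hw.1 h (by omega : u ≤ k) hm1
      rw [show (w - u) + (u - w) = u - w by omega]
      rw [mul_comm (hm m u)]
      refine le_trans (le_of_eq ?_) this
      apply sum_congr rfl
      intro v _
      ring
  refine (sum_le_sum e2).trans ?_
  have e3 : ∀ u ∈ Icc 1 (k - 1), ∑ w ∈ Icc 1 (k - 1), (2 : ℝ) ^ k *
      (hm m u * hm m w + 4 * (1 / 2) ^ ((w - u) + (u - w))) ≤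
      2 ^ k * (hm m u * ∑ w ∈ Icc 1 (k - 1), hm m w) + 2 ^ k * 16 := by
    intro u _
    rw [← mul_sum, sum_add_distrib, ← mul_sum, ← mul_sum, mul_add]
    have := geo_two u (k - 1)
    have h2 : (0 : ℝ) < 2 ^ k := by positivity
    nlinarith
  refine (sum_le_sum e3).trans ?_
  rw [sum_add_distrib, ← mul_sum, ← sum_mul, sum_const, Nat.card_Icc, nsmul_eq_mul]
  have h1 : ((k - 1 + 1 - 1 : ℕ) : ℝ) ≤ k := by
    have : k - 1 + 1 - 1 ≤ k := by omega
    exact_mod_cast this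
  have h2 : (0 : ℝ) < 2 ^ k := by positivity
  rw [← sq, mul_add]
  have h3 : ((k - 1 + 1 - 1 : ℕ) : ℝ) * (2 ^ k * 16) ≤ k * (2 ^ k * 16) :=
    mul_le_mul_of_nonneg_right h1 (by positivity)
  linarith

/-- first moment -/
theorem first_moment {m : ℕ → ℕ} {k : ℕ}
    (hm1 : ∀ u, 1 ≤ u → u ≤ k → 2 ^ (u - 1) ≤ m u ∧ m u < 2 ^ u) :
    ∑ v ∈ range (2 ^ k), (∑ u ∈ Icc 1 (k - 1), hh m u v) = 2 ^ k * ∑ u ∈ Icc 1 (k - 1), hm m u := by
  rw [sum_comm, mul_sum]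
  apply sum_congr rfl
  intro u hu
  rw [mem_Icc] at hu
  unfold hh hm
  rw [sum_add_distrib, sum_gg hu.1 (by omega) (two_pow_sub hu.1).1 (two_pow_sub hu.1).2,
    sum_gg hu.1 (by omega) (hm1 u hu.1 (by omega)).1 (hm1 u hu.1 (by omega)).2]
  ring

end Pool.Agent.R521.Champ
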