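import Mathlib
import Pool.Agent.R521.Champ.D

set_option autoImplicit false

/-! The sum of the squares of the numbers of visits. -/

namespace Pool.Agent.R521.Champ

open Finset

lemma thr {M k u : ℕ} (hs : k < Nat.size (M + 1)) (hu : 1 ≤ u) (huk : u ≤ k) :
    2 ^ (u - 1) ≤ (M + 1) / 2 ^ (Nat.size (M + 1) - u) ∧ (M + 1) / 2 ^ (Nat.size (M + 1) - u) < 2 ^ u := by
  constructor
  · rw [Nat.le_div_iff_mul_le (by positivity), ← pow_add, ← Nat.lt_size]
    omega
  · rw [Nat.div_lt_iff_lt_mul (by positivity), ← pow_add]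
    rw [show u + (Nat.size (M + 1) - u) = Nat.size (M + 1) by omega]
    exact Nat.lt_size_self _

/-- the thresholds -/
def thm (M u : ℕ) : ℕ := (M + 1) / 2 ^ (Nat.size (M + 1) - u)

lemma cnt_bound {M k : ℕ} (hs : k < Nat.size (M + 1)) (v : ℕ) :
    (cnt k (len M) v : ℝ) ≤ ((Nat.size M + 1 - k) * M + 4 * 2 ^ Nat.size M) / 2 ^ k + k ^ 2 +
      2 ^ (Nat.size (M + 1) - k) * ∑ u ∈ Icc 1 (k - 1), hh (thm M) u v := by
  have hkM : 2 ^ k ≤ M + 1 := Nat.lt_size.1 hs
  have hkS : k ≤ Nat.size M := by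
    rcases Nat.eq_zero_or_pos k with h | h
    · omega
    · have h1 : 2 ^ (k - 1) ≤ M := by
        have : 2 ^ k = 2 * 2 ^ (k - 1) := by rw [← pow_succ']; congr 1; omega
        have h0 : 0 < 2 ^ (k - 1) := by positivity
        omega
      have := Nat.lt_size.2 h1
      omega
  have h1 : (cnt k (len M) v : ℝ) ≤ ∑ r ∈ Icc 1 (Nat.size M), (cr k M r v : ℝ) := by
    exact_mod_cast cnt_le k M v
  have e1 : Icc 1 (Nat.size M) ⊆ Icc 1 (k - 1) ∪ (Icc k (Nat.size M)).filter (fun r => 1 ≤ r) := by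
    intro x hx
    simp only [mem_Icc, mem_union, mem_filter] at hx ⊢
    omega
  have e2 : Disjoint (Icc 1 (k - 1)) ((Icc k (Nat.size M)).filter (fun r => 1 ≤ r)) := by
    rw [disjoint_left]
    intro x
    simp only [mem_Icc, mem_filter]
    omega
  have h2 : ∑ r ∈ Icc 1 (Nat.size M), (cr k M r v : ℝ) ≤ ∑ r ∈ Icc 1 (k - 1), (cr k M r v : ℝ) +
      ∑ r ∈ (Icc k (Nat.size M)).filter (fun r => 1 ≤ r), (cr k M r v : ℝ) := by
    rw [← sum_union e2]
    exact sum_le_sum_of_subset_of_nonneg e1 (fun _ _ _ => Nat.cast_nonneg _)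
  have h3 : ∑ r ∈ Icc 1 (k - 1), (cr k M r v : ℝ) ≤ k ^ 2 + 2 ^ (Nat.size (M + 1) - k) *
      ∑ u ∈ Icc 1 (k - 1), hh (thm M) u v := by
    have h4 : ∑ r ∈ Icc 1 (k - 1), (cr k M r v : ℝ) = ∑ u ∈ Icc 1 (k - 1), (cr k M (k - u) v : ℝ) := by
      refine sum_nbij' (fun r => k - r) (fun u => k - u) ?_ ?_ ?_ ?_ ?_
      · intro r hr; rw [mem_Icc] at hr ⊢; omega
      · intro r hr; rw [mem_Icc] at hr ⊢; omega
      · intro r hr; rw [mem_Icc] at hr; omega
      · intro r hr; rw [mem_Icc] at hr; omega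
      · intro r hr
        rw [mem_Icc] at hr
        rw [show k - (k - r) = r by omega]
    rw [h4]
    calc _ ≤ ∑ u ∈ Icc 1 (k - 1), ((k : ℝ) + 2 ^ (Nat.size (M + 1) - k) * hh (thm M) u v) := by
          apply sum_le_sum
          intro u hu
          rw [mem_Icc] at hu
          exact cr_cross (by omega) hs hu.1
      _ = ((k - 1 + 1 - 1 : ℕ) : ℝ) * k + 2 ^ (Nat.size (M + 1) - k) * ∑ u ∈ Icc 1 (k - 1), hh (thm M) u v := by
          rw [sum_add_distrib, sum_const, Nat.card_Icc, nsmul_eq_mul, mul_sum]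
      _ ≤ _ := by
          have h5 : ((k - 1 + 1 - 1 : ℕ) : ℝ) ≤ k := by
            have : k - 1 + 1 - 1 ≤ k := by omega
            exact_mod_cast this
          have h6 : (0 : ℝ) ≤ k := Nat.cast_nonneg k
          nlinarith
  have h4 : ∑ r ∈ (Icc k (Nat.size M)).filter (fun r => 1 ≤ r), (cr k M r v : ℝ) ≤
      ((Nat.size M + 1 - k) * M + 4 * 2 ^ Nat.size M) / 2 ^ k := by
    calc _ ≤ ∑ r ∈ (Icc k (Nat.size M)).filter (fun r => 1 ≤ r), ((M : ℝ) / 2 ^ k + 2 * 2 ^ r / 2 ^ k) := by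
          apply sum_le_sum
          intro r hr
          rw [mem_filter, mem_Icc] at hr
          exact cr_inside hr.2 hr.1.1 (Nat.lt_size.1 (by omega))
      _ ≤ ∑ r ∈ Icc k (Nat.size M), ((M : ℝ) / 2 ^ k + 2 * 2 ^ r / 2 ^ k) := by
          apply sum_le_sum_of_subset_of_nonneg (filter_subset _ _)
          intro _ _ _
          positivity
      _ = ((Nat.size M + 1 - k : ℕ) : ℝ) * (M / 2 ^ k) + (∑ r ∈ Icc k (Nat.size M), (2 : ℝ) ^ r) * (2 / 2 ^ k) := by
          rw [sum_add_distrib, sum_const, Nat.card_Icc, nsmul_eq_mul, sum_mul]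
          congr 1
          apply sum_congr rfl
          intro r _
          ring
      _ ≤ _ := by
          have h5 : ∑ r ∈ Icc k (Nat.size M), (2 : ℝ) ^ r ≤ 2 * 2 ^ Nat.size M := by
            calc _ ≤ ∑ r ∈ range (Nat.size M + 1), (2 : ℝ) ^ r := by
                  apply sum_le_sum_of_subset_of_nonneg
                  · intro x hx; rw [mem_Icc] at hx; rw [mem_range]; omega
                  · intro _ _ _; positivity
              _ = 2 * 2 ^ Nat.size M - 1 := by rw [geom_sum_eq (by norm_num)]; ring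
              _ ≤ _ := by linarith
          have h6 : ((Nat.size M + 1 - k : ℕ) : ℝ) = (Nat.size M : ℝ) + 1 - k := by
            rw [Nat.cast_sub (by omega)]; push_cast; ring
          rw [h6, add_div]
          apply add_le_add (le_of_eq (by ring))
          calc (∑ r ∈ Icc k (Nat.size M), (2 : ℝ) ^ r) * (2 / 2 ^ k) ≤ (2 * 2 ^ Nat.size M) * (2 / 2 ^ k) := by
                gcongr
            _ = _ := by ring
  linarith

lemma two_pow_size_le {n : ℕ} (hn : 1 ≤ n) : 2 ^ Nat.size n ≤ 2 * n := by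
  have h := Nat.size_pos.2 hn
  have h1 : 2 ^ (Nat.size n - 1) ≤ n := Nat.lt_size.1 (by omega)
  have h2 : 2 ^ Nat.size n = 2 * 2 ^ (Nat.size n - 1) := by rw [← pow_succ']; congr 1; omega
  omega

/-- **the sum of the squares** -/
theorem sumsq_bound {M k : ℕ} (hM : 1 ≤ M) (hk : 1 ≤ k) (hs : k < Nat.size (M + 1)) :
    ∑ v ∈ range (2 ^ k), (cnt k (len M) v : ℝ) ^ 2 ≤
      (((Nat.size M + 10) * (M + 1) + k ^ 2 * 2 ^ k) ^ 2 + 64 * k * (M + 1) ^ 2) / 2 ^ k := by
  set c : ℝ := ((Nat.size M + 1 - k) * M + 4 * 2 ^ Nat.size M) / 2 ^ k + k ^ 2 with hc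
  set D : ℝ := 2 ^ (Nat.size (M + 1) - k) with hD
  set Φ : ℕ → ℝ := fun v => ∑ u ∈ Icc 1 (k - 1), hh (thm M) u v with hΦ
  have hm1 : ∀ u, 1 ≤ u → u ≤ k → 2 ^ (u - 1) ≤ thm M u ∧ thm M u < 2 ^ u := fun u h1 h2 => thr hs h1 h2
  have hkM : 2 ^ k ≤ M + 1 := Nat.lt_size.1 hs
  have hkS : k ≤ Nat.size M := by
    have h1 : 2 ^ (k - 1) ≤ M := by
      have : 2 ^ k = 2 * 2 ^ (k - 1) := by rw [← pow_succ']; congr 1; omega
      have h0 : 0 < 2 ^ (k - 1) := by positivity
      omega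
    have := Nat.lt_size.2 h1
    omega
  have hkS' : (k : ℝ) ≤ Nat.size M := by exact_mod_cast hkS
  have hk1 : (1 : ℝ) ≤ k := by exact_mod_cast hk
  have hM1 : (1 : ℝ) ≤ M := by exact_mod_cast hM
  have hD0 : 0 < D := by rw [hD]; positivity
  have hc0 : 0 ≤ c := by
    rw [hc]
    have : (0 : ℝ) ≤ Nat.size M + 1 - k := by linarith
    positivity
  have s1 := first_moment hm1
  have s2 := second_moment hm1
  set μ : ℝ := ∑ u ∈ Icc 1 (k - 1), hm (thm M) u with hμ
  have hμ0 : 0 ≤ μ := by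
    rw [hμ]
    apply sum_nonneg
    intro u hu
    rw [mem_Icc] at hu
    exact hm_nonneg hu.1 (by omega : u ≤ k) hm1
  have hΦ0 : ∀ v, 0 ≤ Φ v := by
    intro v
    rw [hΦ]
    apply sum_nonneg
    intro u _
    unfold hh
    have h1 := gg_nonneg (2 ^ u - 1) u v
    have h2 := gg_nonneg (thm M u) u v
    linarith
  have hsum : ∑ v ∈ range (2 ^ k), (cnt k (len M) v : ℝ) ^ 2 ≤ 2 ^ k * ((c + D * μ) ^ 2 + 16 * k * D ^ 2) := by
    calc _ ≤ ∑ v ∈ range (2 ^ k), (c + D * Φ v) ^ 2 := by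
          apply sum_le_sum
          intro v _
          apply pow_le_pow_left₀ (Nat.cast_nonneg _)
          exact cnt_bound hs v
      _ = 2 ^ k * c ^ 2 + 2 * c * D * ∑ v ∈ range (2 ^ k), Φ v + D ^ 2 * ∑ v ∈ range (2 ^ k), Φ v ^ 2 := by
          have : ∀ v, (c + D * Φ v) ^ 2 = c ^ 2 + 2 * c * D * Φ v + D ^ 2 * Φ v ^ 2 := by intro v; ring
          simp_rw [this]
          rw [sum_add_distrib, sum_add_distrib, ← mul_sum, ← mul_sum, sum_const, card_range, nsmul_eq_mul]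
          push_cast
          ring
      _ ≤ 2 ^ k * c ^ 2 + 2 * c * D * (2 ^ k * μ) + D ^ 2 * (2 ^ k * (μ ^ 2 + 16 * k)) := by
          rw [s1]
          have := mul_le_mul_of_nonneg_left s2 (by positivity : 0 ≤ D ^ 2)
          linarith
      _ = _ := by ring
  -- bounds for the parameters
  have hS1 : (2 : ℝ) ^ Nat.size M ≤ 2 * M := by exact_mod_cast two_pow_size_le hM
  have hS2 : (2 : ℝ) ^ Nat.size (M + 1) ≤ 2 * (M + 1) := by
    exact_mod_cast two_pow_size_le (show 1 ≤ M + 1 by omega)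
  have hDk : D * 2 ^ k = 2 ^ Nat.size (M + 1) := by
    rw [hD, ← pow_add]; congr 1; omega
  have hμle : μ ≤ (k - 1) * ((M + 1) / 2 ^ Nat.size (M + 1)) + 1 := by
    have h1 : ∀ u ∈ Icc 1 (k - 1), hm (thm M) u ≤ (M + 1) / 2 ^ Nat.size (M + 1) + 1 / 2 ^ u := by
      intro u hu
      rw [mem_Icc] at hu
      have hu1 : (2 : ℝ) ^ u = 2 * 2 ^ (u - 1) := by rw [← pow_succ']; congr 1; omega
      have e1 : hm (thm M) u = ((thm M u : ℝ) + 1) / 2 ^ u := by
        unfold hm mean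
        have h0 : ((2 ^ u - 1 : ℕ) : ℝ) = 2 ^ u - 1 := by
          rw [Nat.cast_sub Nat.one_le_two_pow]; push_cast; ring
        rw [h0, hu1]
        field_simp
        ring
      rw [e1, add_div]
      have h2 : (thm M u : ℝ) ≤ (M + 1) / 2 ^ (Nat.size (M + 1) - u) := by
        unfold thm
        have := @Nat.cast_div_le ℝ _ _ _ (M + 1) (2 ^ (Nat.size (M + 1) - u))
        push_cast at this
        exact this
      have h3 : (2 : ℝ) ^ Nat.size (M + 1) = 2 ^ (Nat.size (M + 1) - u) * 2 ^ u := by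
        rw [← pow_add]; congr 1; omega
      have h4 : ((M : ℝ) + 1) / 2 ^ Nat.size (M + 1) = (M + 1) / 2 ^ (Nat.size (M + 1) - u) / 2 ^ u := by
        rw [h3, div_div]
      rw [h4]
      have := div_le_div_of_nonneg_right h2 (by positivity : (0 : ℝ) ≤ 2 ^ u)
      linarith
    rw [hμ]
    refine (sum_le_sum h1).trans ?_
    rw [sum_add_distrib, sum_const, Nat.card_Icc, nsmul_eq_mul]
    have e2 : ((k - 1 + 1 - 1 : ℕ) : ℝ) = k - 1 := by
      rw [show k - 1 + 1 - 1 = k - 1 by omega, Nat.cast_sub hk]; simp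
    rw [e2]
    have h5 : ∑ u ∈ Icc 1 (k - 1), 1 / (2 : ℝ) ^ u ≤ 1 := by
      have h6 : ∀ n : ℕ, ∑ u ∈ Icc 1 n, 1 / (2 : ℝ) ^ u = 1 - 1 / 2 ^ n := by
        intro n
        induction n with
        | zero => simp
        | succ n ih =>
          rw [sum_Icc_succ_top (by omega), ih, pow_succ]
          field_simp
          ring
      rw [h6]
      have : (0 : ℝ) < 1 / 2 ^ (k - 1) := by positivity
      linarith
    linarith
  have h2k : (0 : ℝ) < 2 ^ k := by positivity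
  have hmain : (c + D * μ) * 2 ^ k ≤ (Nat.size M + 10) * (M + 1) + k ^ 2 * 2 ^ k := by
    have e1 : c * 2 ^ k = (Nat.size M + 1 - k) * M + 4 * 2 ^ Nat.size M + k ^ 2 * 2 ^ k := by
      rw [hc]; field_simp
    have h7 : D * μ * 2 ^ k ≤ (k - 1) * (M + 1) + 2 ^ Nat.size (M + 1) := by
      have e3 : D * μ * 2 ^ k = 2 ^ Nat.size (M + 1) * μ := by rw [← hDk]; ring
      rw [e3]
      have h8 : (0 : ℝ) < 2 ^ Nat.size (M + 1) := by positivity
      have := mul_le_mul_of_nonneg_left hμle h8.le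
      refine this.trans (le_of_eq ?_)
      field_simp
    rw [add_mul, e1]
    nlinarith
  have hD2 : D * 2 ^ k ≤ 2 * (M + 1) := by rw [hDk]; exact hS2
  refine hsum.trans ?_
  rw [le_div_iff₀ h2k]
  have h9 : ((c + D * μ) * 2 ^ k) ^ 2 ≤ ((Nat.size M + 10) * (M + 1) + k ^ 2 * 2 ^ k) ^ 2 :=
    pow_le_pow_left₀ (by positivity) hmain 2
  have h10 : (D * 2 ^ k) ^ 2 ≤ (2 * (M + 1)) ^ 2 := pow_le_pow_left₀ (by positivity) hD2 2
  have e4 : 2 ^ k * ((c + D * μ) ^ 2 + 16 * k * D ^ 2) * 2 ^ k =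
      ((c + D * μ) * 2 ^ k) ^ 2 + 16 * k * (D * 2 ^ k) ^ 2 := by ring
  rw [e4]
  have h11 : 16 * (k : ℝ) * (D * 2 ^ k) ^ 2 ≤ 16 * k * (2 * (M + 1)) ^ 2 :=
    mul_le_mul_of_nonneg_left h10 (by positivity)
  nlinarith

lemma len_low (m : ℕ) : m * Nat.size m ≤ len m + 2 ^ Nat.size m := by
  induction m with
  | zero => simp
  | succ m ih =>
    rw [len_succ]
    have h1 : Nat.size m ≤ Nat.size (m + 1) := Nat.size_le_size (by omega)
    have h2 : Nat.size (m + 1) ≤ Nat.size m + 1 := by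
      rw [Nat.size_le, pow_succ]
      have := Nat.lt_size_self m
      omega
    rcases (by omega : Nat.size (m + 1) = Nat.size m ∨ Nat.size (m + 1) = Nat.size m + 1) with h | h
    · rw [h]
      nlinarith
    · have h3 : m + 1 = 2 ^ Nat.size m := by
        have h4 := Nat.lt_size_self m
        have h5 : 2 ^ Nat.size m ≤ m + 1 := Nat.lt_size.1 (by omega)
        omega
      rw [h, pow_succ]
      nlinarith

lemma len_up (m : ℕ) : len m ≤ m * Nat.size m := by
  induction m with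
  | zero => simp [len_zero]
  | succ m ih =>
    rw [len_succ]
    have h1 : Nat.size m ≤ Nat.size (m + 1) := Nat.size_le_size (by omega)
    nlinarith

lemma exists_len (N : ℕ) : ∃ m, len m ≤ N ∧ N < len (m + 1) := by
  have hex : ∃ m, N < len m := ⟨N + 1, lt_of_lt_of_le (Nat.lt_succ_self N) (le_len _)⟩
  classical
  refine ⟨Nat.find hex - 1, ?_, ?_⟩
  · by_contra h
    push Not at h
    have hpos : Nat.find hex ≠ 0 := by
      intro h0
      have := Nat.find_spec hex
      rw [h0, len_zero] at this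
      omega
    exact Nat.find_min hex (by omega) h
  · have hpos : Nat.find hex ≠ 0 := by
      intro h0
      have := Nat.find_spec hex
      rw [h0, len_zero] at this
      omega
    rw [show Nat.find hex - 1 + 1 = Nat.find hex by omega]
    exact Nat.find_spec hex

end Pool.Agent.R521.Champ
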