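import Mathlib
import Pool.Agent.R521.Champ.E

set_option autoImplicit false

/-! Asymptotics of the sum of the squares. -/

namespace Pool.Agent.R521.Champ

open Finset Filter

/-- the number of `1 ≤ n ≤ N` in the cell `v` -/
noncomputable def cN (k N v : ℕ) : ℕ := ((Icc 1 N).filter (fun n => cel k n = v)).card

lemma small_k {β C ε : ℝ} (hβ : β < 1) (hC : 0 < C) (hε : 0 < ε) :
    ∃ N₀ : ℕ, ∀ N : ℕ, N₀ ≤ N → ∀ k : ℕ, (2 : ℝ) ^ k ≤ C * (N : ℝ) ^ β → (k : ℝ) ^ 2 * 2 ^ k ≤ ε * N := by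
  have h1 : ∀ᶠ x : ℝ in atTop, Real.log x ^ (2 : ℝ) ≤ ε / (16 * C) * x ^ (1 - β) := by
    have h := (isLittleO_log_rpow_rpow_atTop 2 (s := 1 - β) (by linarith)).def
      (show 0 < ε / (16 * C) by positivity)
    filter_upwards [h, eventually_ge_atTop 1] with x hx hx1
    rwa [Real.norm_of_nonneg (Real.rpow_nonneg (Real.log_nonneg hx1) _),
      Real.norm_of_nonneg (Real.rpow_nonneg (by linarith) _)] at hx
  have h2 : ∀ᶠ N : ℕ in atTop, Real.log (N : ℝ) ^ (2 : ℝ) ≤ ε / (16 * C) * (N : ℝ) ^ (1 - β) :=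
    tendsto_natCast_atTop_atTop.eventually h1
  have h3 : ∀ᶠ N : ℕ in atTop, C ≤ (N : ℝ) := tendsto_natCast_atTop_atTop.eventually_ge_atTop C
  obtain ⟨N₀, hN₀⟩ := eventually_atTop.1 (h2.and (h3.and (eventually_ge_atTop 3)))
  refine ⟨N₀, fun N hN k hk => ?_⟩
  obtain ⟨h4, h5, h6⟩ := hN₀ N hN
  have hN3 : (3 : ℝ) ≤ N := by exact_mod_cast h6
  have hN0 : (0 : ℝ) < N := by linarith
  have hlog : 0 < Real.log N := Real.log_pos (by linarith)
  have hk2 : (k : ℝ) ≤ 4 * Real.log N := by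
    have h7 := Real.log_le_log (by positivity) hk
    rw [Real.log_pow, Real.log_mul hC.ne' (by positivity), Real.log_rpow hN0] at h7
    have h8 := Real.log_le_log hC h5
    have h9 := Real.log_two_gt_d9
    have h10 : β * Real.log N ≤ 1 * Real.log N := mul_le_mul_of_nonneg_right hβ.le hlog.le
    have h11 : (k : ℝ) * (1 / 2) ≤ k * Real.log 2 :=
      mul_le_mul_of_nonneg_left (by linarith) (Nat.cast_nonneg _)
    linarith
  have h7 : (k : ℝ) ^ 2 ≤ 16 * Real.log N ^ 2 := by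
    have : (k : ℝ) ^ 2 ≤ (4 * Real.log N) ^ 2 := pow_le_pow_left₀ (Nat.cast_nonneg _) hk2 2
    linarith [this, mul_pow (4 : ℝ) (Real.log N) 2]
  have h8 : Real.log (N : ℝ) ^ 2 ≤ ε / (16 * C) * (N : ℝ) ^ (1 - β) := by
    have := h4
    rw [show (2 : ℝ) = ((2 : ℕ) : ℝ) by norm_num, Real.rpow_natCast] at this
    exact this
  have h9 : (N : ℝ) ^ (1 - β) * (N : ℝ) ^ β = N := by
    rw [← Real.rpow_add hN0]; simp
  have h10 : (k : ℝ) ^ 2 ≤ 16 * (ε / (16 * C) * (N : ℝ) ^ (1 - β)) :=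
    h7.trans (mul_le_mul_of_nonneg_left h8 (by norm_num))
  calc (k : ℝ) ^ 2 * 2 ^ k ≤ (16 * (ε / (16 * C) * (N : ℝ) ^ (1 - β))) * (C * (N : ℝ) ^ β) := by
        apply mul_le_mul h10 hk (by positivity)
        positivity
    _ = ε * ((N : ℝ) ^ (1 - β) * (N : ℝ) ^ β) := by field_simp
    _ = ε * N := by rw [h9]

lemma num1 {e s m S N : ℝ} (he0 : 0 < e) (he1 : e ≤ 1 / 10) (hs : 0 < s) (hm : 0 < m) (hse : 1024 ≤ e * s)
    (hme : 1024 ≤ e * m) (hS0 : 0 ≤ S) (hS : S ≤ s + 3) (hN : m * s ≤ N) :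
    (S + 10) * (m + 1 + 1) ≤ (1 + e) * N := by
  have h2 : S + 10 ≤ (1 + e / 3) * s := by nlinarith
  have h3 : m + 1 + 1 ≤ (1 + e / 3) * m := by nlinarith
  have h4 : (1 + e / 3) ^ 2 ≤ 1 + e := by nlinarith
  have hms : 0 ≤ m * s := by positivity
  calc (S + 10) * (m + 1 + 1) ≤ ((1 + e / 3) * s) * ((1 + e / 3) * m) := by
        apply mul_le_mul h2 h3 (by positivity)
        positivity
    _ = (1 + e / 3) ^ 2 * (m * s) := by ring
    _ ≤ (1 + e) * (m * s) := mul_le_mul_of_nonneg_right h4 hms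
    _ ≤ (1 + e) * N := mul_le_mul_of_nonneg_left hN (by positivity)

lemma num2 {e s m k N : ℝ} (he0 : 0 < e) (hs : 1024 ≤ s) (hm : 2 ≤ m) (hse : 1024 ≤ e * s)
    (hk : k ≤ 2 * s) (hN : m * s ≤ N) :
    64 * k * (m + 1 + 1) ^ 2 ≤ e * N ^ 2 := by
  have h3 : m + 1 + 1 ≤ 2 * m := by linarith
  have h4 : (m + 1 + 1) ^ 2 ≤ (2 * m) ^ 2 := pow_le_pow_left₀ (by positivity) h3 2
  have h5 : (m * s) ^ 2 ≤ N ^ 2 := pow_le_pow_left₀ (by positivity) hN 2
  have h6 : 0 ≤ (m + 1 + 1) ^ 2 := by positivity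
  calc 64 * k * (m + 1 + 1) ^ 2 ≤ 64 * (2 * s) * (m + 1 + 1) ^ 2 := by
        apply mul_le_mul_of_nonneg_right _ h6
        linarith
    _ ≤ 64 * (2 * s) * (2 * m) ^ 2 := mul_le_mul_of_nonneg_left h4 (by linarith)
    _ = 512 * s * m ^ 2 := by ring
    _ ≤ (e * s) * s * m ^ 2 := by
        apply mul_le_mul_of_nonneg_right _ (by positivity)
        apply mul_le_mul_of_nonneg_right _ (by linarith)
        linarith
    _ = e * (m * s) ^ 2 := by ring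
    _ ≤ e * N ^ 2 := mul_le_mul_of_nonneg_left h5 he0.le

lemma num3 {e ε A B N : ℝ} (he : e = ε / 10) (hε : 0 < ε) (hε1 : ε ≤ 1) (hN : 0 ≤ N) (hA0 : 0 ≤ A)
    (hA : A ≤ (1 + 2 * e) * N) (hB : B ≤ e * N ^ 2) : A ^ 2 + B ≤ (1 + ε) * N ^ 2 := by
  have h1 : A ^ 2 ≤ ((1 + 2 * e) * N) ^ 2 := pow_le_pow_left₀ hA0 hA 2
  have h2 : (1 + 2 * e) ^ 2 + e ≤ 1 + ε := by
    rw [he]; nlinarith
  have h3 := mul_le_mul_of_nonneg_right h2 (by positivity : 0 ≤ N ^ 2)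
  have h4 : ((1 + 2 * e) ^ 2 + e) * N ^ 2 = ((1 + 2 * e) * N) ^ 2 + e * N ^ 2 := by ring
  linarith

theorem main_count {β C ε : ℝ} (hβ : β < 1) (hC : 0 < C) (hε : 0 < ε) (hε1 : ε ≤ 1) :
    ∃ N₀ : ℕ, ∀ N : ℕ, N₀ ≤ N → ∀ k : ℕ, 1 ≤ k → (2 : ℝ) ^ k ≤ C * (N : ℝ) ^ β →
      ∑ v ∈ range (2 ^ k), (cN k N v : ℝ) ^ 2 ≤ (1 + ε) * (N : ℝ) ^ 2 / 2 ^ k := by
  obtain ⟨e, he⟩ : ∃ e, e = ε / 10 := ⟨_, rfl⟩
  have he0 : 0 < e := by rw [he]; positivity
  have he1 : e ≤ 1 / 10 := by rw [he]; linarith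
  obtain ⟨N₁, hN₁⟩ := small_k hβ hC he0
  obtain ⟨T, hT⟩ : ∃ T : ℕ, 1024 / e ≤ T := exists_nat_ge _
  refine ⟨max N₁ ((2 ^ (T + 2)) ^ 2), fun N hN k hk hkN => ?_⟩
  have hkk := hN₁ N (le_trans (le_max_left _ _) hN) k hkN
  have hNT : (2 ^ (T + 2)) ^ 2 ≤ N := le_trans (le_max_right _ _) hN
  have hN0 : 0 < N := lt_of_lt_of_le (by positivity) hNT
  have hN0r : (0 : ℝ) < N := by exact_mod_cast hN0
  obtain ⟨m, hm1, hm2⟩ := exists_len N
  have hsz : ∀ n : ℕ, Nat.size n ≤ n := fun n => Nat.size_le.2 Nat.lt_two_pow_self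
  have hmT : 2 ^ (T + 1) ≤ m := by
    by_contra h
    push Not at h
    have h1 : len (m + 1) ≤ (m + 1) * (m + 1) := (len_up (m + 1)).trans (Nat.mul_le_mul_left _ (hsz _))
    have h2 : m + 1 ≤ 2 ^ (T + 2) := by
      rw [pow_succ]
      have : 0 < 2 ^ (T + 1) := by positivity
      omega
    have h3 : (m + 1) * (m + 1) ≤ (2 ^ (T + 2)) ^ 2 := by
      rw [sq]; exact Nat.mul_le_mul h2 h2
    omega
  -- the size of `k`
  have hkM : k < Nat.size (m + 1 + 1) := by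
    rw [Nat.lt_size]
    by_contra h
    push Not at h
    have h1 : Nat.size (m + 1) ≤ k := by rw [Nat.size_le]; omega
    have h2 : len (m + 1) ≤ 2 ^ k * k := (len_up (m + 1)).trans (Nat.mul_le_mul (by omega) h1)
    have h3 : (N : ℝ) ≤ k ^ 2 * 2 ^ k := by
      have h4 : N ≤ 2 ^ k * k := by omega
      have h5 : (N : ℝ) ≤ 2 ^ k * k := by exact_mod_cast h4
      have h6 : (1 : ℝ) ≤ k := by exact_mod_cast hk
      have h7 : (0 : ℝ) < 2 ^ k := by positivity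
      nlinarith [mul_nonneg h7.le (by nlinarith : (0 : ℝ) ≤ (k : ℝ) ^ 2 - k)]
    nlinarith
  have hkey := sumsq_bound (M := m + 1) (by omega) hk hkM
  -- comparison of the counts
  have hcmp : ∑ v ∈ range (2 ^ k), (cN k N v : ℝ) ^ 2 ≤ ∑ v ∈ range (2 ^ k), (cnt k (len (m + 1)) v : ℝ) ^ 2 := by
    apply sum_le_sum
    intro v _
    apply pow_le_pow_left₀ (Nat.cast_nonneg _)
    have : cN k N v ≤ cnt k (len (m + 1)) v := by
      unfold cN cnt
      apply card_le_card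
      intro n hn
      rw [mem_filter, mem_Icc] at hn
      rw [mem_filter, mem_range]
      exact ⟨by omega, hn.2⟩
    exact_mod_cast this
  refine hcmp.trans (hkey.trans ?_)
  apply div_le_div_of_nonneg_right _ (by positivity)
  -- sizes
  obtain ⟨σ, hσ⟩ : ∃ σ, σ = Nat.size m := ⟨_, rfl⟩
  have hm0 : 1 ≤ m := le_trans Nat.one_le_two_pow hmT
  have hm2' : 2 ≤ m := by
    refine le_trans ?_ hmT
    calc 2 = 2 ^ 1 := by norm_num
      _ ≤ 2 ^ (T + 1) := Nat.pow_le_pow_right (by norm_num) (by omega)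
  have hσT : T + 2 ≤ σ := by
    have := Nat.lt_size.2 hmT
    omega
  have hS1 : Nat.size (m + 1) ≤ σ + 1 := by
    rw [Nat.size_le, pow_succ]
    have := Nat.lt_size_self m
    rw [← hσ] at this
    omega
  have hS2 : Nat.size (m + 1 + 1) ≤ σ + 1 := by
    rw [Nat.size_le, pow_succ]
    have := Nat.lt_size_self m
    rw [← hσ] at this
    omega
  have hlow : m * σ ≤ N + 2 * m := by
    have h1 := len_low m
    have h2 := two_pow_size_le hm0
    rw [← hσ] at h1 h2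
    omega
  have hlow' : (m : ℝ) * (σ - 2) ≤ N := by
    have : (m : ℝ) * σ ≤ N + 2 * m := by exact_mod_cast hlow
    linarith
  have hσr : (T : ℝ) ≤ σ - 2 := by
    have : ((T + 2 : ℕ) : ℝ) ≤ σ := by exact_mod_cast hσT
    push_cast at this
    linarith
  have hTm : (T : ℝ) ≤ m := by
    have h1 : T ≤ m := (Nat.lt_two_pow_self (n := T)).le.trans
      ((Nat.pow_le_pow_right (by norm_num) (by omega)).trans hmT)
    exact_mod_cast h1
  obtain ⟨s, hs⟩ : ∃ s : ℝ, s = σ - 2 := ⟨_, rfl⟩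
  rw [← hs] at hlow' hσr
  have hse : 1024 ≤ e * s := by
    have := hT.trans hσr
    rw [div_le_iff₀ he0] at this
    linarith
  have hme : 1024 ≤ e * m := by
    have := hT.trans hTm
    rw [div_le_iff₀ he0] at this
    linarith
  have hs1024 : 1024 ≤ s := by nlinarith
  have hm0r : (0 : ℝ) < m := by exact_mod_cast (by omega : 0 < m)
  have hm2r : (2 : ℝ) ≤ m := by exact_mod_cast hm2'
  have hS1r : (Nat.size (m + 1) : ℝ) ≤ s + 3 := by
    have : (Nat.size (m + 1) : ℝ) ≤ σ + 1 := by exact_mod_cast hS1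
    rw [hs]; linarith
  have hkr : (k : ℝ) ≤ 2 * s := by
    have h1 : k ≤ σ := by omega
    have h2 : (k : ℝ) ≤ σ := by exact_mod_cast h1
    have h3 : (σ : ℝ) = s + 2 := by rw [hs]; ring
    linarith
  have f1 := num1 he0 he1 (by linarith) hm0r hse hme (Nat.cast_nonneg (Nat.size (m + 1))) hS1r hlow'
  have f2 := num2 he0 hs1024 hm2r hse hkr hlow'
  have f0 : ((m + 1 : ℕ) : ℝ) = (m : ℝ) + 1 := by push_cast; ring
  rw [f0]
  refine num3 he hε hε1 hN0r.le (by positivity) ?_ f2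
  linarith

end Pool.Agent.R521.Champ
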