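import Mathlib
import Pool.Agent.R521.Champ.F

set_option autoImplicit false

/-! From the visits of the cells to the pair correlations. -/

namespace Pool.Agent.R521.Champ

open Finset Filter

/-- distance to the nearest integer -/
noncomputable def nint (t : ℝ) : ℝ := |t - round t|

/-- visits of a cell, as a function on `ZMod (2 ^ k)` -/
noncomputable def cz (k N : ℕ) (j : ZMod (2 ^ k)) : ℝ :=
  (((Icc 1 N).filter (fun n => ((cel k n : ℕ) : ZMod (2 ^ k)) = j)).card : ℝ)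

instance (k : ℕ) : NeZero (2 ^ k) := ⟨by positivity⟩

lemma cz_sum (k N : ℕ) : ∑ j, cz k N j = N := by
  unfold cz
  rw [← Nat.cast_sum]
  have h := card_eq_sum_card_fiberwise (s := Icc 1 N) (t := (univ : Finset (ZMod (2 ^ k))))
    (f := fun n => ((cel k n : ℕ) : ZMod (2 ^ k))) (fun x _ => by simp)
  rw [← h]
  simp

lemma cz_cast (k N v : ℕ) (hv : v < 2 ^ k) : cz k N (v : ZMod (2 ^ k)) = cN k N v := by
  unfold cz cN
  congr 2
  ext n
  simp only [mem_filter]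
  refine and_congr_right fun _ => ?_
  rw [ZMod.natCast_eq_natCast_iff, Nat.ModEq, Nat.mod_eq_of_lt (cel_lt k n), Nat.mod_eq_of_lt hv]

lemma cz_sq (k N : ℕ) : ∑ j, cz k N j ^ 2 = ∑ v ∈ range (2 ^ k), (cN k N v : ℝ) ^ 2 := by
  symm
  refine sum_bij' (fun v _ => (v : ZMod (2 ^ k))) (fun j _ => j.val) ?_ ?_ ?_ ?_ ?_
  · intro v _; exact mem_univ _
  · intro j _; rw [mem_range]; exact ZMod.val_lt j
  · intro v hv; rw [mem_range] at hv; exact ZMod.val_cast_of_lt hv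
  · intro j _; exact ZMod.natCast_zmod_val j
  · intro v hv; rw [mem_range] at hv; rw [cz_cast k N v hv]

/-- the number of pairs with difference `d` -/
noncomputable def P (k N : ℕ) (d : ZMod (2 ^ k)) : ℝ :=
  (((Icc 1 N ×ˢ Icc 1 N).filter (fun p : ℕ × ℕ =>
    ((cel k p.1 : ℕ) : ZMod (2 ^ k)) - ((cel k p.2 : ℕ) : ZMod (2 ^ k)) = d)).card : ℝ)

lemma P_eq (k N : ℕ) (d : ZMod (2 ^ k)) : P k N d = ∑ j, cz k N (j + d) * cz k N j := by
  unfold P cz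
  have h := card_eq_sum_card_fiberwise (s := (Icc 1 N ×ˢ Icc 1 N).filter (fun p : ℕ × ℕ =>
    ((cel k p.1 : ℕ) : ZMod (2 ^ k)) - ((cel k p.2 : ℕ) : ZMod (2 ^ k)) = d))
    (t := (univ : Finset (ZMod (2 ^ k)))) (f := fun p => ((cel k p.2 : ℕ) : ZMod (2 ^ k))) (fun x _ => by simp)
  rw [h, Nat.cast_sum]
  apply sum_congr rfl
  intro j _
  rw [← Nat.cast_mul, ← card_product]
  congr 2
  ext ⟨a, b⟩
  simp only [mem_filter, mem_product]
  constructor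
  · rintro ⟨⟨⟨h1, h2⟩, h3⟩, h4⟩
    refine ⟨⟨h1, ?_⟩, h2, h4⟩
    rw [← h4, ← h3]; ring
  · rintro ⟨⟨h1, h2⟩, h3, h4⟩
    refine ⟨⟨⟨h1, h3⟩, ?_⟩, h4⟩
    rw [h2, h4]; ring

lemma P_bound {k N : ℕ} {ε : ℝ} (h : ∑ v ∈ range (2 ^ k), (cN k N v : ℝ) ^ 2 ≤ (1 + ε) * (N : ℝ) ^ 2 / 2 ^ k)
    (d : ZMod (2 ^ k)) : |P k N d - (N : ℝ) ^ 2 / 2 ^ k| ≤ ε * (N : ℝ) ^ 2 / 2 ^ k := by
  obtain ⟨q, hq⟩ : ∃ q : ℝ, q = 2 ^ k := ⟨_, rfl⟩
  have hq0 : 0 < q := by rw [hq]; positivity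
  obtain ⟨μ, hμ⟩ : ∃ μ : ℝ, μ = N / q := ⟨_, rfl⟩
  have hsum := cz_sum k N
  have hsum' : ∑ j, cz k N (j + d) = N := by
    rw [← hsum]
    exact Fintype.sum_equiv (Equiv.addRight d) _ _ (fun j => rfl)
  have hsq := cz_sq k N
  have hsq' : ∑ j, cz k N (j + d) ^ 2 = ∑ j, cz k N j ^ 2 :=
    Fintype.sum_equiv (Equiv.addRight d) _ _ (fun j => rfl)
  have hcard : ((univ : Finset (ZMod (2 ^ k))).card : ℝ) = q := by
    rw [card_univ, ZMod.card, hq]; push_cast; rfl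
  have e1 : ∑ j, (cz k N (j + d) - μ) * (cz k N j - μ) = P k N d - (N : ℝ) ^ 2 / q := by
    have : ∀ j, (cz k N (j + d) - μ) * (cz k N j - μ) =
        cz k N (j + d) * cz k N j - μ * cz k N (j + d) - μ * cz k N j + μ ^ 2 := by intro j; ring
    simp_rw [this]
    rw [sum_add_distrib, sum_sub_distrib, sum_sub_distrib, ← mul_sum, ← mul_sum, hsum, hsum', ← P_eq,
      sum_const, nsmul_eq_mul, hcard, hμ]
    field_simp
    ring
  have e2 : ∑ j, (cz k N j - μ) ^ 2 = ∑ j, cz k N j ^ 2 - (N : ℝ) ^ 2 / q := by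
    have : ∀ j, (cz k N j - μ) ^ 2 = cz k N j ^ 2 - 2 * μ * cz k N j + μ ^ 2 := by intro j; ring
    simp_rw [this]
    rw [sum_add_distrib, sum_sub_distrib, ← mul_sum, hsum, sum_const, nsmul_eq_mul, hcard, hμ]
    field_simp
    ring
  have e3 : ∑ j, (cz k N (j + d) - μ) ^ 2 = ∑ j, (cz k N j - μ) ^ 2 :=
    Fintype.sum_equiv (Equiv.addRight d) _ _ (fun j => rfl)
  rw [← hq] at h ⊢
  have h2 : ∑ j, (cz k N j - μ) ^ 2 ≤ ε * (N : ℝ) ^ 2 / q := by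
    rw [e2, hsq]
    have : (1 + ε) * (N : ℝ) ^ 2 / q = (N : ℝ) ^ 2 / q + ε * (N : ℝ) ^ 2 / q := by ring
    linarith
  rw [← e1]
  calc |∑ j, (cz k N (j + d) - μ) * (cz k N j - μ)| ≤ ∑ j, |(cz k N (j + d) - μ) * (cz k N j - μ)| :=
        abs_sum_le_sum_abs _ _
    _ ≤ ∑ j, ((cz k N (j + d) - μ) ^ 2 / 2 + (cz k N j - μ) ^ 2 / 2) := by
        apply sum_le_sum
        intro j _
        rw [abs_le]
        constructor <;> nlinarith [sq_nonneg (cz k N (j + d) - μ + (cz k N j - μ)),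
          sq_nonneg (cz k N (j + d) - μ - (cz k N j - μ))]
    _ = ∑ j, (cz k N j - μ) ^ 2 := by
        rw [sum_add_distrib, ← sum_div, ← sum_div, e3]; ring
    _ ≤ _ := h2

/-- all pairs at distance at most `ρ`, the diagonal included -/
noncomputable def T (N : ℕ) (ρ : ℝ) : ℝ :=
  (((Icc 1 N ×ˢ Icc 1 N).filter (fun p : ℕ × ℕ => nint (tail p.1 - tail p.2) ≤ ρ)).card : ℝ)

lemma cel_bounds (k n : ℕ) : (cel k n : ℝ) ≤ 2 ^ k * tail n ∧ 2 ^ k * tail n < cel k n + 1 := by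
  unfold cel
  exact ⟨Nat.floor_le (mul_nonneg (by positivity) (tail_nonneg n)), Nat.lt_floor_add_one _⟩

lemma T_upper {k N : ℕ} {ε ρ : ℝ} (hρ : 0 ≤ ρ) (hε : 0 ≤ ε)
    (h : ∑ v ∈ range (2 ^ k), (cN k N v : ℝ) ^ 2 ≤ (1 + ε) * (N : ℝ) ^ 2 / 2 ^ k) :
    T N ρ ≤ (2 * (2 ^ k * ρ) + 3) * ((1 + ε) * (N : ℝ) ^ 2 / 2 ^ k) := by
  obtain ⟨J, hJ⟩ : ∃ J : ℕ, J = ⌊2 ^ k * ρ⌋₊ + 1 := ⟨_, rfl⟩
  have hq0 : (0 : ℝ) < 2 ^ k := by positivity
  have hJr : (J : ℝ) ≤ 2 ^ k * ρ + 1 := by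
    rw [hJ]; push_cast
    have := Nat.floor_le (mul_nonneg hq0.le hρ)
    linarith
  have h1 : T N ρ ≤ ∑ j ∈ Icc (-(J : ℤ)) J, P k N (j : ZMod (2 ^ k)) := by
    unfold T P
    rw [← Nat.cast_sum]
    apply Nat.cast_le.2
    refine le_trans ?_ card_biUnion_le
    apply card_le_card
    rintro ⟨l, m⟩ hp
    rw [mem_filter] at hp
    obtain ⟨hp1, hp2⟩ := hp
    simp only at hp2
    rw [mem_biUnion]
    obtain ⟨z, hz⟩ : ∃ z : ℤ, z = round (tail l - tail m) := ⟨_, rfl⟩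
    unfold nint at hp2
    rw [← hz] at hp2
    obtain ⟨b1, b2⟩ := cel_bounds k l
    obtain ⟨b3, b4⟩ := cel_bounds k m
    rw [abs_le] at hp2
    have c1 : (2 : ℝ) ^ k * (tail l - tail m - z) ≤ 2 ^ k * ρ := mul_le_mul_of_nonneg_left hp2.2 hq0.le
    have c2 : (2 : ℝ) ^ k * (-ρ) ≤ 2 ^ k * (tail l - tail m - z) := mul_le_mul_of_nonneg_left hp2.1 hq0.le
    have hfl : 2 ^ k * ρ < ⌊2 ^ k * ρ⌋₊ + 1 := Nat.lt_floor_add_one _
    refine ⟨(cel k l : ℤ) - cel k m - 2 ^ k * z, ?_, ?_⟩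
    · rw [mem_Icc]
      have hJ2 : (J : ℝ) = ⌊2 ^ k * ρ⌋₊ + 1 := by rw [hJ]; push_cast; rfl
      constructor
      · have : ((-(J : ℤ) - 1 : ℤ) : ℝ) < (((cel k l : ℤ) - cel k m - 2 ^ k * z : ℤ) : ℝ) := by
          push_cast
          linarith
        have := Int.cast_lt.1 this
        omega
      · have : (((cel k l : ℤ) - cel k m - 2 ^ k * z : ℤ) : ℝ) < ((J + 1 : ℤ) : ℝ) := by
          push_cast
          linarith
        have := Int.cast_lt.1 this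
        omega
    · rw [mem_filter]
      refine ⟨hp1, ?_⟩
      have h0 : ((2 : ZMod (2 ^ k)) ^ k) = 0 := by
        have := ZMod.natCast_self (2 ^ k)
        push_cast at this
        exact this
      push_cast
      rw [h0]
      ring
  have h2 : ∀ j ∈ Icc (-(J : ℤ)) J, P k N (j : ZMod (2 ^ k)) ≤ (1 + ε) * (N : ℝ) ^ 2 / 2 ^ k := by
    intro j _
    have := P_bound h (j : ZMod (2 ^ k))
    rw [abs_le] at this
    have e : (1 + ε) * (N : ℝ) ^ 2 / 2 ^ k = (N : ℝ) ^ 2 / 2 ^ k + ε * (N : ℝ) ^ 2 / 2 ^ k := by ring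
    linarith
  refine h1.trans ((sum_le_sum h2).trans ?_)
  rw [sum_const, Int.card_Icc, nsmul_eq_mul]
  apply mul_le_mul_of_nonneg_right _ (by positivity)
  have e2 : (((J : ℤ) + 1 - -(J : ℤ)).toNat : ℝ) = 2 * J + 1 := by
    have : ((J : ℤ) + 1 - -(J : ℤ)).toNat = 2 * J + 1 := by omega
    rw [this]; push_cast; ring
  rw [e2]
  linarith

lemma T_lower {k N : ℕ} {ε ρ : ℝ} (hρ : 1 ≤ 2 ^ k * ρ) (hρ2 : ρ ≤ 1 / 2) (hε1 : ε ≤ 1)
    (h : ∑ v ∈ range (2 ^ k), (cN k N v : ℝ) ^ 2 ≤ (1 + ε) * (N : ℝ) ^ 2 / 2 ^ k) :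
    (2 * (2 ^ k * ρ) - 3) * ((1 - ε) * (N : ℝ) ^ 2 / 2 ^ k) ≤ T N ρ := by
  have hfl1 : 1 ≤ ⌊2 ^ k * ρ⌋₊ := by
    rw [Nat.one_le_floor_iff]
    exact hρ
  obtain ⟨J, hJ⟩ : ∃ J : ℕ, ⌊2 ^ k * ρ⌋₊ = J + 1 := ⟨⌊2 ^ k * ρ⌋₊ - 1, by omega⟩
  have hq0 : (0 : ℝ) < 2 ^ k := by positivity
  have hJ1 : (J : ℝ) + 1 ≤ 2 ^ k * ρ := by
    have := Nat.floor_le (show 0 ≤ 2 ^ k * ρ by linarith)
    rw [hJ] at this
    push_cast at this
    exact this
  have hJ2 : 2 ^ k * ρ < J + 2 := by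
    have := Nat.lt_floor_add_one (2 ^ k * ρ)
    rw [hJ] at this
    push_cast at this
    linarith
  have hJq : 2 * J + 1 < 2 ^ k := by
    have h1 : (2 : ℝ) ^ k * ρ ≤ 2 ^ k * (1 / 2) := mul_le_mul_of_nonneg_left hρ2 hq0.le
    have h2 : (2 * (J : ℝ) + 1) < 2 ^ k := by linarith
    exact_mod_cast h2
  have h1 : ∑ j ∈ Icc (-(J : ℤ)) J, P k N (j : ZMod (2 ^ k)) ≤ T N ρ := by
    unfold T P
    rw [← Nat.cast_sum]
    apply Nat.cast_le.2
    rw [← card_biUnion]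
    · apply card_le_card
      rintro ⟨l, m⟩ hp
      rw [mem_biUnion] at hp
      obtain ⟨j, hj, hp⟩ := hp
      rw [mem_filter] at hp ⊢
      refine ⟨hp.1, ?_⟩
      simp only at hp ⊢
      have hc : (((cel k l : ℤ) - cel k m : ℤ) : ZMod (2 ^ k)) = ((j : ℤ) : ZMod (2 ^ k)) := by
        push_cast
        exact hp.2
      rw [ZMod.intCast_eq_intCast_iff] at hc
      obtain ⟨z, hz⟩ := (Int.modEq_iff_dvd.1 hc.symm)
      have hz' : ((cel k l : ℝ) - cel k m) - j = 2 ^ k * z := by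
        have := congrArg (fun t : ℤ => (t : ℝ)) hz
        push_cast at this
        exact this
      obtain ⟨b1, b2⟩ := cel_bounds k l
      obtain ⟨b3, b4⟩ := cel_bounds k m
      rw [mem_Icc] at hj
      have hj1 : -(J : ℝ) ≤ j := by exact_mod_cast hj.1
      have hj2 : (j : ℝ) ≤ J := by exact_mod_cast hj.2
      unfold nint
      refine (round_le _ z).trans ?_
      rw [abs_le]
      constructor
      · by_contra hcon
        push Not at hcon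
        have := mul_lt_mul_of_pos_left hcon hq0
        nlinarith
      · by_contra hcon
        push Not at hcon
        have := mul_lt_mul_of_pos_left hcon hq0
        nlinarith
    · intro i hi j hj hij
      rw [Function.onFun, disjoint_left]
      intro p hp hp'
      rw [mem_filter] at hp hp'
      apply hij
      have hc : ((i : ℤ) : ZMod (2 ^ k)) = ((j : ℤ) : ZMod (2 ^ k)) := by rw [← hp.2, ← hp'.2]
      rw [ZMod.intCast_eq_intCast_iff] at hc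
      obtain ⟨z, hz⟩ := (Int.modEq_iff_dvd.1 hc)
      rw [mem_coe, mem_Icc] at hi hj
      push_cast at hz
      have hqq : (2 * (J : ℤ) + 1) < 2 ^ k := by exact_mod_cast hJq
      have hz0 : z = 0 := by
        by_contra hne
        rcases lt_or_gt_of_ne hne with h3 | h3
        · have : (2 : ℤ) ^ k * z ≤ 2 ^ k * (-1) := mul_le_mul_of_nonneg_left (by omega) (by positivity)
          omega
        · have : (2 : ℤ) ^ k * 1 ≤ 2 ^ k * z := mul_le_mul_of_nonneg_left (by omega) (by positivity)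
          omega
      rw [hz0, mul_zero] at hz
      omega
  have h2 : ∀ j ∈ Icc (-(J : ℤ)) J, (1 - ε) * (N : ℝ) ^ 2 / 2 ^ k ≤ P k N (j : ZMod (2 ^ k)) := by
    intro j _
    have := P_bound h (j : ZMod (2 ^ k))
    rw [abs_le] at this
    have e : (1 - ε) * (N : ℝ) ^ 2 / 2 ^ k = (N : ℝ) ^ 2 / 2 ^ k - ε * (N : ℝ) ^ 2 / 2 ^ k := by ring
    linarith
  refine le_trans ?_ ((sum_le_sum h2).trans h1)
  rw [sum_const, Int.card_Icc, nsmul_eq_mul]
  have e2 : (((J : ℤ) + 1 - -(J : ℤ)).toNat : ℝ) = 2 * J + 1 := by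
    have : ((J : ℤ) + 1 - -(J : ℤ)).toNat = 2 * J + 1 := by omega
    rw [this]; push_cast; ring
  rw [e2]
  apply mul_le_mul_of_nonneg_right _ _
  · linarith
  · have : 0 ≤ 1 - ε := by linarith
    positivity

end Pool.Agent.R521.Champ
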