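import Mathlib
import Pool.Agent.R521.Champ.G

set_option autoImplicit false

/-! Weak pair correlations of the orbit. -/

namespace Pool.Agent.R521.Champ

open Finset Filter Topology

/-- the pairs of different indices at distance at most `s N ^ (-β)` -/
noncomputable def RR (N : ℕ) (s β : ℝ) : ℕ :=
  ((Icc 1 N ×ˢ Icc 1 N).filter (fun p : ℕ × ℕ => p.1 ≠ p.2 ∧
    nint (tail p.1 - tail p.2) ≤ s * (N : ℝ) ^ (-β))).card

lemma nint_zero : nint 0 = 0 := by unfold nint; simp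

lemma T_eq (N : ℕ) {s β : ℝ} (hs : 0 ≤ s) : T N (s * (N : ℝ) ^ (-β)) = RR N s β + N := by
  have hρ : 0 ≤ s * (N : ℝ) ^ (-β) := mul_nonneg hs (Real.rpow_nonneg (Nat.cast_nonneg _) _)
  unfold T RR
  have h1 : (Icc 1 N ×ˢ Icc 1 N).filter (fun p : ℕ × ℕ => nint (tail p.1 - tail p.2) ≤ s * (N : ℝ) ^ (-β)) =
      (Icc 1 N ×ˢ Icc 1 N).filter (fun p : ℕ × ℕ => p.1 ≠ p.2 ∧
        nint (tail p.1 - tail p.2) ≤ s * (N : ℝ) ^ (-β)) ∪ (Icc 1 N).image (fun n => (n, n)) := by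
    ext ⟨a, b⟩
    simp only [mem_filter, mem_product, mem_union, mem_image, Prod.mk.injEq]
    constructor
    · rintro ⟨h1, h2⟩
      by_cases hab : a = b
      · right; exact ⟨a, h1.1, rfl, hab⟩
      · left; exact ⟨h1, hab, h2⟩
    · rintro (⟨h1, _, h2⟩ | ⟨c, h1, rfl, rfl⟩)
      · exact ⟨h1, h2⟩
      · refine ⟨⟨h1, h1⟩, ?_⟩
        rw [sub_self, nint_zero]
        exact hρ
  rw [h1, card_union_of_disjoint]
  · rw [card_image_of_injective _ (fun a b h => by simpa using h)]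
    simp
  · rw [disjoint_left]
    rintro ⟨a, b⟩ h2 h3
    rw [mem_filter] at h2
    rw [mem_image] at h3
    obtain ⟨c, _, h4⟩ := h3
    simp only [Prod.mk.injEq] at h4
    exact h2.2.1 (h4.1.symm.trans h4.2)

/-- two sided bound -/
theorem bounds {β s δ : ℝ} (hβ0 : 0 < β) (hβ1 : β < 1) (hs : 0 < s) (hδ : 0 < δ) (hδ1 : δ ≤ 1 / 3) :
    ∀ᶠ N : ℕ in atTop, |(RR N s β : ℝ) / (N : ℝ) ^ (2 - β) - 2 * s| ≤ 6 * s * δ + δ := by
  obtain ⟨N₀, hN₀⟩ := main_count (β := β) (C := 2 * (1 / δ) / s) hβ1 (by positivity) hδ (by linarith)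
  have tN : Tendsto (fun N : ℕ => (N : ℝ)) atTop atTop := tendsto_natCast_atTop_atTop
  have l1 : Tendsto (fun N : ℕ => (N : ℝ) ^ β) atTop atTop := (tendsto_rpow_atTop hβ0).comp tN
  have l2 : Tendsto (fun N : ℕ => (N : ℝ) ^ (-β)) atTop (𝓝 0) := (tendsto_rpow_neg_atTop hβ0).comp tN
  have l3 : Tendsto (fun N : ℕ => (N : ℝ) ^ (-(1 - β))) atTop (𝓝 0) :=
    (tendsto_rpow_neg_atTop (by linarith)).comp tN
  filter_upwards [eventually_ge_atTop N₀, eventually_ge_atTop 1, l1.eventually_ge_atTop (s * δ),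
    l2.eventually_le_const (show 0 < 1 / (2 * s) by positivity), l3.eventually_le_const hδ]
    with N h1 h2 h3 h4 h5
  have hN1 : (1 : ℝ) ≤ N := by exact_mod_cast h2
  have hN0 : (0 : ℝ) < N := by linarith
  have hx1 : 1 ≤ (1 / δ) * (N : ℝ) ^ β / s := by
    rw [le_div_iff₀ hs, one_mul, one_div, inv_mul_eq_div, le_div_iff₀ hδ]
    exact h3
  obtain ⟨n, hn1, hn2⟩ := exists_nat_pow_near hx1 (one_lt_two)
  obtain ⟨k, hk⟩ : ∃ k, k = n + 1 := ⟨_, rfl⟩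
  rw [← hk] at hn2
  have hk2 : (2 : ℝ) ^ k ≤ 2 * (1 / δ) / s * (N : ℝ) ^ β := by
    rw [hk, pow_succ]
    have : 2 * (1 / δ) / s * (N : ℝ) ^ β = ((1 / δ) * (N : ℝ) ^ β / s) * 2 := by ring
    rw [this]
    exact mul_le_mul_of_nonneg_right hn1 (by norm_num)
  have hcount := hN₀ N h1 k (by omega) hk2
  obtain ⟨ρ, hρ⟩ : ∃ ρ : ℝ, ρ = s * (N : ℝ) ^ (-β) := ⟨_, rfl⟩
  have hNβ : (0 : ℝ) < (N : ℝ) ^ (-β) := Real.rpow_pos_of_pos hN0 _
  have hNβ' : (N : ℝ) ^ (-β) * (N : ℝ) ^ β = 1 := by rw [← Real.rpow_add hN0]; simp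
  have hρ0 : 0 < ρ := by rw [hρ]; positivity
  have hq0 : (0 : ℝ) < 2 ^ k := by positivity
  have hqρ : 1 / δ ≤ 2 ^ k * ρ := by
    have h6 : (1 / δ) * (N : ℝ) ^ β / s * ρ ≤ 2 ^ k * ρ := mul_le_mul_of_nonneg_right hn2.le hρ0.le
    have h7 : (1 / δ) * (N : ℝ) ^ β / s * ρ = 1 / δ := by
      rw [hρ]
      calc (1 / δ) * (N : ℝ) ^ β / s * (s * (N : ℝ) ^ (-β)) =
          (1 / δ) * ((N : ℝ) ^ (-β) * (N : ℝ) ^ β) * (s / s) := by ring
        _ = 1 / δ := by rw [hNβ', div_self hs.ne']; ring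
    linarith
  have hρ2 : ρ ≤ 1 / 2 := by
    rw [hρ]
    calc s * (N : ℝ) ^ (-β) ≤ s * (1 / (2 * s)) := mul_le_mul_of_nonneg_left h4 hs.le
      _ = 1 / 2 := by field_simp
  have h1δ : 1 ≤ 1 / δ := by rw [le_div_iff₀ hδ]; linarith
  have hU := T_upper hρ0.le hδ.le hcount
  have hL := T_lower (h1δ.trans hqρ) hρ2 (by linarith) hcount
  rw [hρ] at hU hL
  rw [T_eq N hs.le, ← hρ] at hU hL
  obtain ⟨Y, hY⟩ : ∃ Y : ℝ, Y = (N : ℝ) ^ (2 - β) := ⟨_, rfl⟩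
  have hY0 : 0 < Y := by rw [hY]; exact Real.rpow_pos_of_pos hN0 _
  have hYρ : ρ * (N : ℝ) ^ 2 = s * Y := by
    rw [hρ, hY, mul_assoc, ← Real.rpow_natCast (N : ℝ) 2, ← Real.rpow_add hN0]
    congr 2
    push_cast
    ring
  have hinv : 1 / 2 ^ k ≤ δ * ρ := by
    rw [div_le_iff₀ hq0]
    rw [div_le_iff₀ hδ] at hqρ
    linarith
  have hN2 : (0 : ℝ) < (N : ℝ) ^ 2 := by positivity
  have hU2 : (RR N s β : ℝ) + N ≤ (2 + 6 * δ) * (s * Y) := by
    refine hU.trans ?_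
    calc (2 * (2 ^ k * ρ) + 3) * ((1 + δ) * (N : ℝ) ^ 2 / 2 ^ k) =
        (2 * ρ + 3 * (1 / 2 ^ k)) * ((1 + δ) * (N : ℝ) ^ 2) := by field_simp
      _ ≤ (2 * ρ + 3 * (δ * ρ)) * ((1 + δ) * (N : ℝ) ^ 2) := by
          apply mul_le_mul_of_nonneg_right _ (by positivity)
          linarith
      _ = ((2 + 3 * δ) * (1 + δ)) * (ρ * (N : ℝ) ^ 2) := by ring
      _ ≤ (2 + 6 * δ) * (ρ * (N : ℝ) ^ 2) := by
          apply mul_le_mul_of_nonneg_right _ (by positivity)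
          nlinarith
      _ = _ := by rw [hYρ]
  have hL2 : (2 - 6 * δ) * (s * Y) ≤ (RR N s β : ℝ) + N := by
    refine le_trans ?_ hL
    calc (2 - 6 * δ) * (s * Y) = (2 - 6 * δ) * (ρ * (N : ℝ) ^ 2) := by rw [hYρ]
      _ ≤ ((2 - 3 * δ) * (1 - δ)) * (ρ * (N : ℝ) ^ 2) := by
          apply mul_le_mul_of_nonneg_right _ (by positivity)
          nlinarith
      _ = (2 * ρ - 3 * (δ * ρ)) * ((1 - δ) * (N : ℝ) ^ 2) := by ring
      _ ≤ (2 * ρ - 3 * (1 / 2 ^ k)) * ((1 - δ) * (N : ℝ) ^ 2) := by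
          apply mul_le_mul_of_nonneg_right _ _
          · linarith
          · have : 0 ≤ 1 - δ := by linarith
            positivity
      _ = _ := by field_simp
  have hNY : (N : ℝ) ≤ δ * Y := by
    have h6 : (N : ℝ) ^ (-(1 - β)) * Y = N := by
      rw [hY, ← Real.rpow_add hN0]
      rw [show -(1 - β) + (2 - β) = 1 by ring, Real.rpow_one]
    calc (N : ℝ) = (N : ℝ) ^ (-(1 - β)) * Y := h6.symm
      _ ≤ δ * Y := mul_le_mul_of_nonneg_right h5 hY0.le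
  rw [← hY, abs_le]
  constructor
  · rw [← sub_nonneg]
    have : (RR N s β : ℝ) / Y - 2 * s - -(6 * s * δ + δ) =
        ((RR N s β : ℝ) - (2 - 6 * δ) * (s * Y) + δ * Y) / Y := by field_simp; ring
    rw [this]
    apply div_nonneg _ hY0.le
    linarith
  · rw [← sub_nonneg]
    have : 6 * s * δ + δ - ((RR N s β : ℝ) / Y - 2 * s) =
        ((2 + 6 * δ) * (s * Y) + δ * Y - (RR N s β : ℝ)) / Y := by field_simp; ring
    rw [this]
    apply div_nonneg _ hY0.le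
    have : 0 ≤ δ * Y := by positivity
    linarith

theorem limit_pos {β s : ℝ} (hβ0 : 0 < β) (hβ1 : β < 1) (hs : 0 < s) :
    Tendsto (fun N : ℕ => (RR N s β : ℝ) / (N : ℝ) ^ (2 - β)) atTop (𝓝 (2 * s)) := by
  rw [Metric.tendsto_nhds]
  intro η hη
  obtain ⟨δ, hδ⟩ : ∃ δ : ℝ, δ = min (1 / 3) (η / (2 * (6 * s + 1))) := ⟨_, rfl⟩
  have hδ0 : 0 < δ := by rw [hδ]; exact lt_min (by norm_num) (by positivity)
  have hδ1 : δ ≤ 1 / 3 := by rw [hδ]; exact min_le_left _ _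
  have hδ2 : δ ≤ η / (2 * (6 * s + 1)) := by rw [hδ]; exact min_le_right _ _
  filter_upwards [bounds hβ0 hβ1 hs hδ0 hδ1] with N hN
  rw [Real.dist_eq]
  refine lt_of_le_of_lt hN ?_
  rw [le_div_iff₀ (by positivity)] at hδ2
  nlinarith

theorem limit_nonneg {β s : ℝ} (hβ0 : 0 < β) (hβ1 : β < 1) (hs : 0 ≤ s) :
    Tendsto (fun N : ℕ => (RR N s β : ℝ) / (N : ℝ) ^ (2 - β)) atTop (𝓝 (2 * s)) := by
  rcases hs.eq_or_lt with h | h
  · subst h
    rw [Metric.tendsto_nhds]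
    intro η hη
    have h1 := limit_pos hβ0 hβ1 (show 0 < η / 4 by positivity)
    have h2 := h1.eventually_le_const (show 2 * (η / 4) < 3 * η / 4 by linarith)
    filter_upwards [h2] with N hN
    have hY : 0 ≤ (N : ℝ) ^ (2 - β) := Real.rpow_nonneg (Nat.cast_nonneg _) _
    have hmono : RR N 0 β ≤ RR N (η / 4) β := by
      unfold RR
      apply card_le_card
      intro p hp
      rw [mem_filter] at hp ⊢
      refine ⟨hp.1, hp.2.1, hp.2.2.trans ?_⟩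
      apply mul_le_mul_of_nonneg_right (by positivity)
      exact Real.rpow_nonneg (Nat.cast_nonneg _) _
    have h3 : (RR N 0 β : ℝ) / (N : ℝ) ^ (2 - β) ≤ (RR N (η / 4) β : ℝ) / (N : ℝ) ^ (2 - β) :=
      div_le_div_of_nonneg_right (by exact_mod_cast hmono) hY
    have h4 : 0 ≤ (RR N 0 β : ℝ) / (N : ℝ) ^ (2 - β) := div_nonneg (Nat.cast_nonneg _) hY
    rw [Real.dist_eq, mul_zero, sub_zero, abs_of_nonneg h4]
    linarith
  · exact limit_pos hβ0 hβ1 h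

end Pool.Agent.R521.Champ
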